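import Pool.Agent.Lib.MP_011f3a_lc.LM.I.Stmt0

/-! # The recursion defining the iteration (module I-RAW) -/

namespace Pool.Agent.Lib.MP_011f3a_lc.LM

variable {Ω : Type} [LinearOrder Ω] [WellFoundedLT Ω]

theorem Raw.at_mk {ζ : Ω} (f : ∀ ξ : Ω, ξ < ζ → List ℕ → Set (Raw Ω ξ)) (ξ : Ω) (h : ξ < ζ) :
    (Raw.mk f).at ξ h = f ξ h := by
  unfold Raw.at Raw.mk
  simp

theorem Raw.ext {ζ : Ω} {p q : Raw Ω ζ} (h : ∀ ξ h, p.at ξ h = q.at ξ h) : p = q := by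
  have h1 : ∀ p : Raw Ω ζ, Raw.mk (fun ξ h => p.at ξ h) = p := by
    intro p
    unfold Raw.mk Raw.at
    simp
  rw [← h1 p, ← h1 q]
  congr 1
  funext ξ hξ
  exact h ξ hξ

theorem Raw.at_res {ζ : Ω} (p : Raw Ω ζ) {ξ : Ω} (h : ξ ≤ ζ) (η : Ω) (hη : η < ξ) :
    (p.res ξ h).at η hη = p.at η (hη.trans_le h) := Raw.at_mk _ _ _

theorem Raw.res_res {ζ : Ω} (p : Raw Ω ζ) {ξ : Ω} (h : ξ ≤ ζ) {η : Ω} (hη : η ≤ ξ) :
    (p.res ξ h).res η hη = p.res η (hη.trans h) := by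
  refine Raw.ext fun θ hθ => ?_
  rw [Raw.at_res, Raw.at_res, Raw.at_res]

theorem Raw.res_self {ζ : Ω} (p : Raw Ω ζ) (h : ζ ≤ ζ) : p.res ζ h = p :=
  Raw.ext fun θ hθ => by rw [Raw.at_res]

variable {F : ∀ R : Type, PO R → (List ℕ → Set R) → R → Prop}

theorem csi_eq (ζ : Ω) : CSI F ζ =
    { mem := {p | {ξ : Ω | ∃ h : ξ < ζ, p.at ξ h ≠ fun _ => (CSI F ξ).mem}.Countable ∧
        ∀ ξ (h : ξ < ζ), (∀ s, p.at ξ h s ⊆ (CSI F ξ).mem) ∧ F _ (CSI F ξ) (p.at ξ h) (p.res ξ h.le)}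
      le := fun p q => ∀ ξ (h : ξ < ζ), (CSI F ξ).FSub (p.at ξ h) (q.at ξ h) (p.res ξ h.le) } :=
  WellFoundedLT.fix_eq (motive := fun ζ => PO (Raw Ω ζ)) _ ζ

theorem mem_csi {ζ : Ω} {p : Raw Ω ζ} : p ∈ (CSI F ζ).mem ↔
    {ξ : Ω | ∃ h : ξ < ζ, p.at ξ h ≠ fun _ => (CSI F ξ).mem}.Countable ∧
      ∀ ξ (h : ξ < ζ), (∀ s, p.at ξ h s ⊆ (CSI F ξ).mem) ∧ F _ (CSI F ξ) (p.at ξ h) (p.res ξ h.le) := by
  rw [csi_eq]
  rfl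

theorem le_csi {ζ : Ω} {p q : Raw Ω ζ} : (CSI F ζ).le p q ↔
    ∀ ξ (h : ξ < ζ), (CSI F ξ).FSub (p.at ξ h) (q.at ξ h) (p.res ξ h.le) := by
  rw [csi_eq]

theorem res_mem {ζ : Ω} {p : Raw Ω ζ} (hp : p ∈ (CSI F ζ).mem) {ξ : Ω} (h : ξ ≤ ζ) :
    p.res ξ h ∈ (CSI F ξ).mem := by
  rw [mem_csi] at hp ⊢
  refine ⟨hp.1.mono ?_, fun η hη => ?_⟩
  · rintro η ⟨hη, h1⟩
    rw [Raw.at_res] at h1
    exact ⟨hη.trans_le h, h1⟩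
  · rw [Raw.at_res, Raw.res_res]
    exact hp.2 η (hη.trans_le h)

theorem res_le {ζ : Ω} {p q : Raw Ω ζ} (hp : (CSI F ζ).le p q) {ξ : Ω} (h : ξ ≤ ζ) :
    (CSI F ξ).le (p.res ξ h) (q.res ξ h) := by
  rw [le_csi] at hp ⊢
  intro η hη
  rw [Raw.at_res, Raw.at_res, Raw.res_res]
  exact hp η (hη.trans_le h)

theorem csi_refl {ζ : Ω} (p : Raw Ω ζ) : (CSI F ζ).le p p := by
  rw [le_csi]
  exact fun ξ h s w' _ _ h1 => h1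

theorem csi_trans {ζ : Ω} {p q r : Raw Ω ζ} (hpq : (CSI F ζ).le p q) (hqr : (CSI F ζ).le q r) :
    (CSI F ζ).le p r := by
  induction ζ using WellFoundedLT.induction with
  | ind ζ ih =>
    have h1 := le_csi.1 hpq
    have h2 := le_csi.1 hqr
    rw [le_csi]
    intro ξ h s w' hw' hw h3
    have h4 : (CSI F ξ).le w' (q.res ξ h.le) := ih ξ h hw (res_le hpq h.le)
    exact h2 ξ h s w' hw' h4 (h1 ξ h s w' hw' hw h3)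

variable (Ω) in
/-- the conditions of the iteration of length `ζ` -/
def Cn (md : Md) (ζ : Ω) : Type := {p : Raw Ω ζ // p ∈ (CSI md.F ζ).mem}

variable {md : Md}

instance (ζ : Ω) : Preorder (Cn Ω md ζ) where
  le p q := (CSI md.F ζ).le p.1 q.1
  le_refl p := csi_refl p.1
  le_trans _ _ _ h1 h2 := csi_trans h1 h2

end Pool.Agent.Lib.MP_011f3a_lc.LM
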