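import Pool.Agent.Lib.MP_011f3a_lc.LM.I.TpB

/-! # The generic branch, part 3 (module I-GBB)

`exists_restr_of`: decide `s` with `Ψ s` (`exists_decide`, `FA.exists_of_BPr` on `P_ξ`), `exists_restr`. `gb_new`: by `FA_local` it suffices to find below every `p` some `q` which forces `gb ξ G ≠ y (rs ξ G)`: decide two incomparable nodes `t`, `t'` of `p(ξ)` (a splitting node has two children) and whether
`t ∈ y`; if `t ∉ y` restrict to `t`, otherwise restrict to `t'`; then `t ∈ gb ξ G` or `t ∉ gb ξ G` (`gb_branch`). -/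

namespace Pool.Agent.Lib.MP_011f3a_lc.LM

variable {Ω : Type} [LinearOrder Ω] [WellFoundedLT Ω] {md : Md} {ζ ξ η : Ω}

/-- an extension of `p` whose branch at `ξ` passes through a node of a given kind -/
theorem exists_restr_of (h : ξ < ζ) (p : Cn Ω md ζ) {Ψ : List ℕ → Flt (Cn Ω md ξ) → Prop} (hb : ∀ s, BPr (Ψ s))
    (hs : FA (tr ξ p) fun G => ∃ s, s ∈ ev (p.co ξ) G ∧ Ψ s G) :
    ∃ r ≤ p, ∃ s, FA (tr ξ r) (Ψ s) ∧ r ≤ tp ζ ξ s ∧ ∀ η, ξ < η → r.co η = p.co η := by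
  obtain ⟨v, hv, s, h1⟩ := hs.exists_of_BPr fun s => (bt_ev _ s).and (hb s)
  obtain ⟨r0, hr0, h3, hrp, -⟩ := exists_join h.le p v hv
  rw [← hr0, ← h3 ξ le_rfl] at h1
  obtain ⟨r, h4, h5, -, h6, h7⟩ := exists_restr h r0 (h1.imp fun G _ h6 => h6.1)
  refine ⟨r, h4.trans hrp, s, ?_, h7, fun η hη => (h6 η hη).trans (h3 η hη.le)⟩
  rw [h5]
  exact h1.imp fun G _ h8 => by
    rw [h3 ξ le_rfl] at h8
    exact h8.2

private theorem gbb_two {T : Set (List ℕ)} (h : TC md T) : ∃ t ∈ T, ∃ t' ∈ T, ¬ (t <+: t' ∨ t' <+: t) := by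
  obtain ⟨a, -, -, ha⟩ := h.exists_split h.nil_mem
  obtain ⟨n, -, hn⟩ := ha 0
  obtain ⟨n', hn', hn1⟩ := ha (n + 1)
  refine ⟨_, hn, _, hn1, ?_⟩
  rintro (h1 | h1)
  · have h2 := h1.eq_of_length (by simp)
    simp at h2
    omega
  · have h2 := h1.eq_of_length (by simp)
    simp at h2
    omega

/-- the generic branch at `ξ` is not in the model `V[G ∩ P_ξ]` -/
theorem gb_new (h : ξ < ζ) (p : Cn Ω md ζ) {y : Flt (Cn Ω md ξ) → Set (List ℕ)} (hy : BT y) :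
    FA p fun G => gb ξ G ≠ y (rs ξ G) := by
  refine FA_local fun w' _ => ?_
  obtain ⟨r, hr, s, h1, h2, -⟩ := exists_restr_of h w'
    (Ψ := fun s G => ¬ s ∈ y G ∨ ∃ t, t ∈ y G ∧ ¬ (t <+: s ∨ s <+: t))
    (fun s => (hy s).not.or (BPr.exists fun t => (hy t).and (BPr.const _))) (by
      refine (Cn.good w' ξ).imp fun G _ h3 => ?_
      obtain ⟨t, ht, t', ht', h4⟩ := gbb_two h3
      by_cases h5 : t ∈ y G
      · exact ⟨t', ht', Or.inr ⟨t, h5, h4⟩⟩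
      · exact ⟨t, ht, Or.inl h5⟩)
  refine ⟨r, hr, (FA.proj h.le h1).imp₂ (gb_branch h r) fun G hG h3 h4 h5 => ?_⟩
  have h6 : s ∈ gb ξ G := G.up _ hG _ h2
  rcases h3 with h3 | ⟨t, ht, h7⟩
  · rw [h5] at h6
    exact h3 h6
  · rw [← h5] at ht
    exact h7 (h4.compar ht h6)

end Pool.Agent.Lib.MP_011f3a_lc.LM
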