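import Pool.Agent.Lib.MP_011f3a_lc.LM.A.TreeB

/-! # Coordinates of conditions, part 2 (module I-COB)

See the header of I/Co.lean: `le_csi`, `mem_csi`, `brg_sub`, `brg_good`, `Raw.at_mk`, `Raw.at_res`. In `exists_mk` show first by induction on `ξ ≤ ζ` that the restriction to `ξ` of the sequence is a condition (the `w` in the hypothesis). -/

namespace Pool.Agent.Lib.MP_011f3a_lc.LM

variable {Ω : Type} [LinearOrder Ω] [WellFoundedLT Ω] {md : Md} {ζ ξ η : Ω}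

private theorem cob_tr (p : Cn Ω md ζ) (h : ξ ≤ ζ) : (tr ξ p).1 = p.1.res ξ h := by
  refine Raw.ext fun θ hθ => ?_
  rw [Raw.at_res, tr, Raw.at_mk, dif_pos (hθ.trans_le h)]

private theorem cob_co (p : Cn Ω md ζ) (h : ξ < ζ) : p.co ξ = fun s => sb (p.1.at ξ h s) := by
  funext s
  ext c
  exact ⟨fun h1 => h1 h, fun h1 _ => h1⟩

theorem Cn.le_iff {p q : Cn Ω md ζ} : p ≤ q ↔ ∀ ξ < ζ, FA (tr ξ p) fun G => ev (p.co ξ) G ⊆ ev (q.co ξ) G := by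
  refine Iff.trans (b := (CSI md.F ζ).le p.1 q.1) Iff.rfl ?_
  rw [le_csi]
  refine forall_congr' fun ξ => forall_congr' fun h => ?_
  rw [cob_co p h, cob_co q h, ← cob_tr p h.le,
    brg_sub ((mem_csi.1 p.2).2 ξ h).1 ((mem_csi.1 q.2).2 ξ h).1 (tr ξ p)]

theorem Cn.good (p : Cn Ω md ζ) (ξ : Ω) : FA (tr ξ p) fun G => TC md (ev (p.co ξ) G) := by
  rcases lt_or_ge ξ ζ with h | h
  · have h1 := ((mem_csi.1 p.2).2 ξ h)
    rw [cob_co p h, ← brg_good h1.1, cob_tr p h.le]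
    exact h1.2
  · rw [Cn.co_of_le p h]
    have h1 := full_good (md := md) (tr ξ p).1 (tr ξ p).2
    rw [brg_good (fun _ => subset_rfl)] at h1
    have h2 : (fun s : List ℕ => sb (CSI md.F ξ).mem) = full (Cn Ω md ξ) (List ℕ) := by
      funext s
      exact sb_mem
    rw [h2] at h1
    exact h1

theorem Cn.supp_countable (p : Cn Ω md ζ) : p.supp.Countable := by
  refine (mem_csi.1 p.2).1.mono fun ξ hξ => ?_
  rcases lt_or_ge ξ ζ with h | h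
  · refine ⟨h, fun h1 => hξ ?_⟩
    rw [cob_co p h, h1]
    funext s
    exact sb_mem
  · exact (hξ (Cn.co_of_le p h)).elim

theorem Cn.supp_lt (p : Cn Ω md ζ) : ∀ ξ ∈ p.supp, ξ < ζ := by
  intro ξ hξ
  by_contra h
  exact hξ (Cn.co_of_le p (not_lt.1 h))

/-- existence of a condition with given values `N ξ` -/
theorem exists_mk (N : ∀ ξ : Ω, List ℕ → Set (Cn Ω md ξ)) (hc : {ξ | ξ < ζ ∧ N ξ ≠ full _ _}.Countable)
    (h : ∀ ξ < ζ, ∀ w : Cn Ω md ξ, (∀ η < ξ, w.co η = N η) → FA w fun G => TC md (ev (N ξ) G)) :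
    ∃ p : Cn Ω md ζ, ∀ ξ < ζ, p.co ξ = N ξ := by
  let f : ∀ ξ : Ω, List ℕ → Set (Raw Ω ξ) := fun ξ s => {r | ∃ h : r ∈ (CSI md.F ξ).mem, (⟨r, h⟩ : Cn Ω md ξ) ∈ N ξ s}
  have hf : ∀ ξ s, f ξ s ⊆ (CSI md.F ξ).mem := fun ξ s r hr => hr.1
  have hfN : ∀ ξ s, sb (f ξ s) = N ξ s := by
    intro ξ s
    ext c
    exact ⟨fun h1 => h1.2, fun h1 => ⟨c.2, h1⟩⟩
  have hfull : ∀ ξ, N ξ = full _ _ → f ξ = fun _ => (CSI md.F ξ).mem := by
    intro ξ h1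
    funext s
    ext r
    refine ⟨fun h2 => h2.1, fun h2 => ⟨h2, ?_⟩⟩
    rw [h1]
    trivial
  have hmem : ∀ ξ ≤ ζ, Raw.mk (fun η (_ : η < ξ) => f η) ∈ (CSI md.F ξ).mem := by
    intro ξ
    induction ξ using WellFoundedLT.induction with
    | ind ξ ih =>
      intro hξ
      rw [mem_csi]
      refine ⟨hc.mono ?_, fun η hη => ?_⟩
      · rintro η ⟨hη, h1⟩
        rw [Raw.at_mk] at h1
        exact ⟨hη.trans_le hξ, fun h2 => h1 (hfull η h2)⟩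
      · have hres : (Raw.mk (fun η (_ : η < ξ) => f η)).res η hη.le = Raw.mk (fun θ (_ : θ < η) => f θ) := by
          refine Raw.ext fun θ hθ => ?_
          rw [Raw.at_res, Raw.at_mk, Raw.at_mk]
        rw [Raw.at_mk, hres]
        refine ⟨hf η, ?_⟩
        have h1 := ih η hη (hη.le.trans hξ)
        have h2 := h η (hη.trans_le hξ) ⟨_, h1⟩ (fun θ hθ => ?_)
        · rw [brg_good (hf η) ⟨_, h1⟩]
          simpa only [hfN] using h2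
        · rw [cob_co _ hθ]
          funext s
          rw [Raw.at_mk, hfN]
  refine ⟨⟨_, hmem ζ le_rfl⟩, fun ξ hξ => ?_⟩
  rw [cob_co _ hξ]
  funext s
  rw [Raw.at_mk, hfN]

end Pool.Agent.Lib.MP_011f3a_lc.LM

/-! # The order (module I-ORD) -/

namespace Pool.Agent.Lib.MP_011f3a_lc.LM

variable {Ω : Type} [LinearOrder Ω] [WellFoundedLT Ω] {md : Md} {ζ ξ η : Ω}

private theorem ord_full (w : Cn Ω md ξ) (T : List ℕ → Set (Cn Ω md ξ)) :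
    FA w fun G => ev T G ⊆ ev (full (Cn Ω md ξ) (List ℕ)) G :=
  FA.of_forall fun G hG _ _ => ⟨w, trivial, hG⟩

theorem tr_mono {p q : Cn Ω md ζ} (h : p ≤ q) (ξ : Ω) : tr ξ p ≤ tr ξ q := by
  rw [Cn.le_iff] at h ⊢
  intro η hη
  rw [tr_tr _ hη.le, co_tr _ hη, co_tr _ hη]
  rcases lt_or_ge η ζ with h1 | h1
  · exact h η h1
  · rw [Cn.co_of_le q h1]
    exact ord_full _ _

theorem le_tr_iff {p : Cn Ω md ζ} {q : Cn Ω md ξ} (h : ξ ≤ ζ) : p ≤ tr ζ q ↔ tr ξ p ≤ q := by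
  constructor
  · intro h1
    have h2 := tr_mono h1 ξ
    rwa [tr_tr' _ h, tr_self] at h2
  · intro h1
    rw [Cn.le_iff] at h1 ⊢
    intro η hη
    rw [co_tr _ hη]
    rcases lt_or_ge η ξ with h2 | h2
    · have h3 := h1 η h2
      rwa [tr_tr _ h2.le, co_tr _ h2] at h3
    · rw [Cn.co_of_le q h2]
      exact ord_full _ _

theorem le_tr_tr (p : Cn Ω md ζ) (ξ : Ω) : p ≤ tr ζ (tr ξ p) := by
  rw [Cn.le_iff]
  intro η hη
  rw [co_tr _ hη]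
  rcases lt_or_ge η ξ with h2 | h2
  · rw [co_tr _ h2]
    exact FA.of_forall fun G _ => subset_rfl
  · rw [Cn.co_of_le (tr ξ p) h2]
    exact ord_full _ _

/-- a condition of length `ζ` whose support is bounded by `ξ` -/
theorem tr_tr_of_supp {p : Cn Ω md ζ} (h : ∀ η ∈ p.supp, η < ξ) : tr ζ (tr ξ p) = p := by
  refine Cn.ext fun η hη => ?_
  rw [co_tr _ hη]
  rcases lt_or_ge η ξ with h2 | h2
  · rw [co_tr _ h2]
  · rw [Cn.co_of_le (tr ξ p) h2]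
    by_contra h3
    exact (h η fun h4 => h3 h4.symm).not_ge h2

/-- the order up to a coordinate: `p ≤ q` if this holds below `ξ` and at the coordinates `≥ ξ` -/
theorem Cn.le_of {p q : Cn Ω md ζ} (h : tr ξ p ≤ tr ξ q)
    (h' : ∀ η, ξ ≤ η → η < ζ → FA (tr η p) fun G => ev (p.co η) G ⊆ ev (q.co η) G) : p ≤ q := by
  rw [Cn.le_iff] at h ⊢
  intro η hη
  rcases lt_or_ge η ξ with h2 | h2
  · have h3 := h η h2
    rwa [tr_tr _ h2.le, co_tr _ h2, co_tr _ h2] at h3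
  · exact h' η h2 hη

/-- equal conditions up to the coordinates `≥ ξ` -/
theorem Cn.ext_of {p q : Cn Ω md ζ} (h : tr ξ p = tr ξ q) (h' : ∀ η, ξ ≤ η → η < ζ → p.co η = q.co η) : p = q := by
  refine Cn.ext fun η hη => ?_
  rcases lt_or_ge η ξ with h2 | h2
  · rw [← co_tr p h2, h, co_tr q h2]
  · exact h' η h2 hη

theorem Cn.co_eq_of_tr {p : Cn Ω md ζ} {q : Cn Ω md η} (h : tr ξ p = tr ξ q) {θ : Ω} (hθ : θ < ξ) : p.co θ = q.co θ := by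
  rw [← co_tr p hθ, h, co_tr q hθ]

/-- the weakest condition -/
theorem exists_top (ζ : Ω) : ∃ o : Cn Ω md ζ, (∀ ξ, o.co ξ = full _ _) ∧ ∀ p : Cn Ω md ζ, p ≤ o := by
  obtain ⟨o, ho⟩ := exists_mk (md := md) (ζ := ζ) (fun ξ => full (Cn Ω md ξ) (List ℕ)) (by
    refine Set.countable_empty.mono ?_
    rintro ξ ⟨-, h⟩
    exact (h rfl).elim) (fun ξ hξ w hw => by
    have h1 := Cn.good w ξ
    rwa [tr_self, Cn.co_of_le w le_rfl] at h1)
  have ho' : ∀ ξ, o.co ξ = full _ _ := by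
    intro ξ
    rcases lt_or_ge ξ ζ with h2 | h2
    · exact ho ξ h2
    · exact Cn.co_of_le o h2
  refine ⟨o, ho', fun p => ?_⟩
  rw [Cn.le_iff]
  intro ξ hξ
  rw [ho' ξ]
  exact ord_full _ _

end Pool.Agent.Lib.MP_011f3a_lc.LM

/-! # Restriction of filters (module I-RS)

`rs ξ G` is the filter on `P_ξ` given by the filter `G` on `P_ζ`. `vl p ξ G` is the value of the name `p(ξ)`. -/

namespace Pool.Agent.Lib.MP_011f3a_lc.LM

variable {Ω : Type} [LinearOrder Ω] [WellFoundedLT Ω] {md : Md} {ζ ξ η : Ω}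

/-- the induced filter -/
noncomputable def rs (ξ : Ω) (G : Flt (Cn Ω md ζ)) : Flt (Cn Ω md ξ) where
  car := {q | ∃ p ∈ G.car, tr ξ p ≤ q}
  ne := by
    obtain ⟨p, hp⟩ := G.ne
    exact ⟨tr ξ p, p, hp, le_rfl⟩
  up := by
    rintro q ⟨p, hp, hq⟩ q' h
    exact ⟨p, hp, hq.trans h⟩
  dir := by
    rintro q ⟨p, hp, hq⟩ q' ⟨p', hp', hq'⟩
    obtain ⟨r, hr, h1, h2⟩ := G.dir p hp p' hp'
    exact ⟨tr ξ r, ⟨r, hr, le_rfl⟩, (tr_mono h1 ξ).trans hq, (tr_mono h2 ξ).trans hq'⟩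

/-- the value of the name `p(ξ)` -/
noncomputable def vl (p : Cn Ω md ζ) (ξ : Ω) (G : Flt (Cn Ω md η)) : Set (List ℕ) := ev (p.co ξ) (rs ξ G)

theorem Flt.ext {P : Type} [Preorder P] {G G' : Flt P} (h : G.car = G'.car) : G = G' := by
  cases G
  cases G'
  cases h
  rfl

theorem mem_rs {G : Flt (Cn Ω md ζ)} (h : ξ ≤ ζ) {q : Cn Ω md ξ} : q ∈ (rs ξ G).car ↔ tr ζ q ∈ G.car := by
  constructor
  · rintro ⟨p, hp, h1⟩
    exact G.up _ hp _ ((le_tr_iff h).2 h1)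
  · intro h1
    refine ⟨_, h1, ?_⟩
    rw [tr_tr' _ h, tr_self]

theorem tr_mem_rs {G : Flt (Cn Ω md ζ)} {p : Cn Ω md ζ} (h : p ∈ G.car) (ξ : Ω) : tr ξ p ∈ (rs ξ G).car :=
  ⟨p, h, le_rfl⟩

theorem rs_self (G : Flt (Cn Ω md ζ)) : rs ζ G = G := by
  refine Flt.ext ?_
  ext q
  rw [mem_rs le_rfl, tr_self]

theorem rs_rs (G : Flt (Cn Ω md ζ)) (h : ξ ≤ η) (h' : η ≤ ζ) : rs ξ (rs η G) = rs ξ G := by
  refine Flt.ext ?_
  ext q
  constructor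
  · rintro ⟨p, ⟨p', hp', h1⟩, h2⟩
    refine ⟨p', hp', le_trans ?_ h2⟩
    rw [← tr_tr p' h]
    exact tr_mono h1 ξ
  · rintro ⟨p, hp, h2⟩
    refine ⟨tr η p, tr_mem_rs hp η, ?_⟩
    rw [tr_tr p h]
    exact h2

theorem vl_self (p : Cn Ω md ζ) (G : Flt (Cn Ω md ξ)) : vl p ξ G = ev (p.co ξ) G := by
  rw [vl, rs_self]

theorem vl_rs (p : Cn Ω md ζ) (G : Flt (Cn Ω md η)) {θ : Ω} (h : ξ ≤ θ) (h' : θ ≤ η) : vl p ξ (rs θ G) = vl p ξ G := by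
  rw [vl, vl, rs_rs G h h']

theorem mt_rs {G : Flt (Cn Ω md ζ)} {A : Set (Cn Ω md ξ)} (h : ξ ≤ ζ) : mt A (rs ξ G) ↔ mt {p | ∃ a ∈ A, p = tr ζ a} G := by
  constructor
  · rintro ⟨c, hc, h1⟩
    exact ⟨tr ζ c, ⟨c, hc, rfl⟩, (mem_rs h).1 h1⟩
  · rintro ⟨_, ⟨c, hc, rfl⟩, h1⟩
    exact ⟨c, hc, (mem_rs h).2 h1⟩

/-- an open set of `P_ξ` is met by the restriction of some element of the filter -/
theorem mt_rs_iff {G : Flt (Cn Ω md ζ)} {A : Set (Cn Ω md ξ)} (hA : Opn A) (h : ξ ≤ ζ) :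
    mt A (rs ξ G) ↔ ∃ p ∈ G.car, tr ξ p ∈ A := by
  constructor
  · rintro ⟨c, hc, p, hp, h1⟩
    exact ⟨p, hp, hA c hc _ h1⟩
  · rintro ⟨p, hp, h1⟩
    exact ⟨_, h1, tr_mem_rs hp ξ⟩

end Pool.Agent.Lib.MP_011f3a_lc.LM
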