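import Pool.Agent.Lib.MP_011f3a_lc.LM.I.TpB

/-! # The general limit lemma (module I-GL)

`IT γ A ρ η G` is the intersection of the trees `ρ_i(η)` over all `i` such that the generic filter meets `A i`. `exists_mk` with `N η = w.co η` for `η < γ` and
`N η = mkn (IT γ A ρ η)` for `η ≥ γ` (full outside of the union of the supports: `mkn_univ`, `ev_full`). Let `η ≥ γ` and let `w' : Cn Ω md η` have these values.
Claim: if `v ≤ w'` and `tr γ v ∈ A i` then `v ≤ tr η (ρ i)` (`Cn.le_of` with `ξ = γ`; at a coordinate `θ` in `[γ, η)`: `FA (tr θ v)` of `ev (v.co θ) ⊆ ev (mkn (IT …)) = IT …`, and a filter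
which contains `tr θ v` meets `A i` in its restriction to `γ`). Hence `FA w' (∀ i, mt (A i) (rs γ G) → tr η (ρ i) ∈ G.car)`: a filter which contains `w'` and meets
`A i` contains some `v ≤ w'` with `tr γ v ∈ A i` (`mt_rs_iff`, directedness). So `h` applies to `w'`, and `bt_ev_mkn`. -/

namespace Pool.Agent.Lib.MP_011f3a_lc.LM

variable {Ω : Type} [LinearOrder Ω] [WellFoundedLT Ω] {md : Md} {ζ γ η : Ω} {ι : Type}

/-- the intersection of the trees of the active conditions -/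
def IT (γ : Ω) (A : ι → Set (Cn Ω md γ)) (ρ : ι → Cn Ω md ζ) (η : Ω) (G : Flt (Cn Ω md η)) : Set (List ℕ) :=
  {s | ∀ i, mt (A i) (rs γ G) → s ∈ ev ((ρ i).co η) G}

theorem bt_IT [Countable ι] (h : γ ≤ η) (A : ι → Set (Cn Ω md γ)) (ρ : ι → Cn Ω md ζ) : BT (IT γ A ρ η) :=
  fun s => BPr.all fun i => (BPr.proj h (BPr.mt (A i))).imp (BPr.mt ((ρ i).co η s))

private theorem GL_le [Countable ι] {η : Ω} (hη : γ ≤ η) {w : Cn Ω md γ} {A : ι → Set (Cn Ω md γ)}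
    {ρ : ι → Cn Ω md ζ} (hρ : ∀ i, ∀ a ∈ A i, a ≤ w → a ≤ tr γ (ρ i)) {w' : Cn Ω md η}
    (hw : tr γ w' = w) (hw' : ∀ θ, γ ≤ θ → θ < η → w'.co θ = mkn (IT γ A ρ θ)) {v : Cn Ω md η}
    (hv : v ≤ w') {i : ι} (hi : tr γ v ∈ A i) : v ≤ tr η (ρ i) := by
  have h1 : tr γ v ≤ w := by
    rw [← hw]
    exact tr_mono hv γ
  refine Cn.le_of (ξ := γ) ?_ fun θ hθ hθη => ?_
  · rw [tr_tr _ hη]
    exact hρ i _ hi h1
  · rw [co_tr _ hθη]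
    have h2 := Cn.le_iff.1 hv θ hθη
    rw [hw' θ hθ hθη] at h2
    refine FA.imp₂ h2 (bt_ev_mkn (bt_IT hθ A ρ) (tr θ v)) fun G hG h3 h4 s hs => ?_
    have h5 : s ∈ IT γ A ρ θ G := by
      rw [← h4]
      exact h3 hs
    refine h5 i ⟨tr γ v, hi, ?_⟩
    have h6 := tr_mem_rs hG γ
    rwa [tr_tr _ hθ] at h6

private theorem GL_mem [Countable ι] {η : Ω} (hη : γ ≤ η) {w : Cn Ω md γ} {A : ι → Set (Cn Ω md γ)}
    {ρ : ι → Cn Ω md ζ} (hA : ∀ i, Opn (A i)) (hρ : ∀ i, ∀ a ∈ A i, a ≤ w → a ≤ tr γ (ρ i))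
    {w' : Cn Ω md η} (hw : tr γ w' = w)
    (hw' : ∀ θ, γ ≤ θ → θ < η → w'.co θ = mkn (IT γ A ρ θ)) :
    FA w' fun G => ∀ i, mt (A i) (rs γ G) → tr η (ρ i) ∈ G.car := by
  refine FA.of_forall fun G hG i hi => ?_
  obtain ⟨p, hp, hpA⟩ := (mt_rs_iff (hA i) hη).1 hi
  obtain ⟨v, hvG, hvp, hvw⟩ := G.dir _ hp _ hG
  exact G.up _ hvG _ (GL_le hη hρ hw hw' hvw (hA i _ hpA _ (tr_mono hvp γ)))

theorem exists_gl [Countable ι] (hγ : γ ≤ ζ) (w : Cn Ω md γ) (A : ι → Set (Cn Ω md γ)) (ρ : ι → Cn Ω md ζ)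
    (hA : ∀ i, Opn (A i)) (hρ : ∀ i, ∀ a ∈ A i, a ≤ w → a ≤ tr γ (ρ i))
    (h : ∀ η, γ ≤ η → η < ζ → ∀ v : Cn Ω md η, tr γ v ≤ w →
      (FA v fun G => ∀ i, mt (A i) (rs γ G) → tr η (ρ i) ∈ G.car) → FA v fun G => TC md (IT γ A ρ η G)) :
    ∃ r : Cn Ω md ζ, tr γ r = w ∧ (∀ η, γ ≤ η → η < ζ → r.co η = mkn (IT γ A ρ η)) ∧
      (∀ η, γ ≤ η → η ≤ ζ → ∀ v : Cn Ω md η, v ≤ tr η r → ∀ i, tr γ v ∈ A i → v ≤ tr η (ρ i)) ∧
      ∀ η, γ ≤ η → η ≤ ζ → FA (tr η r) fun G => ∀ i, mt (A i) (rs γ G) → tr η (ρ i) ∈ G.car := by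
  classical
  let N : ∀ η : Ω, List ℕ → Set (Cn Ω md η) := fun η => if γ ≤ η then mkn (IT γ A ρ η) else w.co η
  have N1 : ∀ η, γ ≤ η → N η = mkn (IT γ A ρ η) := fun η hη => if_pos hη
  have N2 : ∀ η, η < γ → N η = w.co η := fun η hη => if_neg (not_le.2 hη)
  have hw0 : ∀ (η : Ω) (w' : Cn Ω md η), γ ≤ η → (∀ θ < η, w'.co θ = N θ) → tr γ w' = w := by
    intro η w' hη hw'
    refine Cn.ext fun θ hθ => ?_
    rw [co_tr _ hθ, hw' θ (hθ.trans_le hη), N2 θ hθ]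
  have hw1 : ∀ (η : Ω) (w' : Cn Ω md η), (∀ θ < η, w'.co θ = N θ) → ∀ θ, γ ≤ θ → θ < η →
      w'.co θ = mkn (IT γ A ρ θ) := by
    intro η w' hw' θ hθ hθη
    rw [hw' θ hθη, N1 θ hθ]
  obtain ⟨r, hr⟩ := exists_mk (ζ := ζ) N (by
    refine ((w.supp_countable).union (Set.countable_iUnion fun i => (ρ i).supp_countable)).mono ?_
    rintro ξ ⟨hξ, hN⟩
    by_cases hγξ : γ ≤ ξ
    · right
      by_contra hcon
      apply hN
      rw [N1 ξ hγξ]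
      refine mkn_univ fun G => Set.eq_univ_of_forall fun s i _ => ?_
      have h1 : (ρ i).co ξ = full _ _ := by
        by_contra h2
        exact hcon (Set.mem_iUnion.2 ⟨i, h2⟩)
      rw [h1, ev_full]
      exact Set.mem_univ s
    · left
      intro h1
      exact hN (by rw [N2 ξ (not_le.1 hγξ), h1])) (by
    intro η hη w' hw'
    by_cases hγη : γ ≤ η
    · rw [N1 η hγη]
      have h0 := hw0 η w' hγη hw'
      have h1 := h η hγη hη w' h0.le (GL_mem hγη hA hρ h0 (hw1 η w' hw'))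
      refine FA.imp₂ h1 (bt_ev_mkn (bt_IT hγη A ρ) w') fun G _ h2 h3 => ?_
      rw [h3]
      exact h2
    · have h1 : w' = tr η w := Cn.ext fun θ hθ => by
        rw [hw' θ hθ, N2 θ (hθ.trans (not_le.1 hγη)), co_tr _ hθ]
      rw [N2 η (not_le.1 hγη), h1]
      exact w.good η)
  have hr' : ∀ η ≤ ζ, ∀ θ < η, (tr η r).co θ = N θ := by
    intro η hη θ hθ
    rw [co_tr _ hθ, hr θ (hθ.trans_le hη)]
  refine ⟨r, hw0 ζ r hγ hr, fun η hη hηζ => ?_, fun η hη hηζ v hv i hi => ?_, fun η hη hηζ => ?_⟩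
  · rw [hr η hηζ, N1 η hη]
  · exact GL_le hη hρ (hw0 η _ hη (hr' η hηζ)) (hw1 η _ (hr' η hηζ)) hv hi
  · exact GL_mem hη hA hρ (hw0 η _ hη (hr' η hηζ)) (hw1 η _ (hr' η hηζ))

end Pool.Agent.Lib.MP_011f3a_lc.LM

/-! # Separativity (module I-SEP)

Suppose `r ≤ p` fails. By `Cn.le_iff` and `FA_local` there are `ξ < ζ`, `w ≤ tr ξ r` and `s` with `FA w (s ∈ r(ξ) ∧ s ∉ p(ξ))` (take events, `BPr.of_forall`,
`FA.exists_of_BPr`). Let `v ≤ r` be the join of `w` and `r`, restricted to `s` at `ξ` (`exists_restr`). If `v' ≤ v` and `v' ≤ p` then `tr ξ v' ≤ w` forces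
`s ∈ v'(ξ) ⊆ p(ξ)` (`TC.of_subset_abv`). -/

namespace Pool.Agent.Lib.MP_011f3a_lc.LM

variable {Ω : Type} [LinearOrder Ω] [WellFoundedLT Ω] {md : Md} {ζ ξ η : Ω}

theorem Cn.sep {r p : Cn Ω md ζ} (h : ∀ v ≤ r, ∃ v' ≤ v, v' ≤ p) : r ≤ p := by
  rw [Cn.le_iff]
  intro ξ hξ
  refine FA.all fun s => ?_
  refine ((bt_ev (r.co ξ) s).imp (bt_ev (p.co ξ) s)).of_forall fun v hv h1 => ?_
  obtain ⟨r0, hr0, h3, hrp, -⟩ := exists_join hξ.le r v hv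
  obtain ⟨r1, h4, h5, -, -, h6⟩ := exists_restr hξ r0 (s := s) (by
    rw [hr0, h3 ξ le_rfl]
    exact h1.imp fun G _ h7 => by
      by_contra h8
      exact h7 fun h9 => (h8 h9).elim)
  obtain ⟨v', h7, h8⟩ := h r1 (h4.trans hrp)
  have h9 : tr ξ v' ≤ v := by
    rw [← hr0, ← h5]
    exact tr_mono h7 ξ
  have h10 := (le_tp_iff hξ).1 (h7.trans h6)
  obtain ⟨G, -, ⟨⟨h11, h12⟩, h13⟩, h14⟩ := (((h10.and (Cn.good v' ξ)).and (FA.vl_sub hξ h8)).and (h1.mono h9)).exists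
  exact h14 fun _ => h13 (TC.of_subset_abv h12 h11)

/-- `r` forces that `p` belongs to the generic filter iff `r ≤ p` -/
theorem Cn.le_iff_FA {r p : Cn Ω md ζ} : r ≤ p ↔ FA r fun G => p ∈ G.car := by
  constructor
  · intro h
    exact FA.of_forall fun G hG => G.up _ hG _ h
  · intro h
    refine Cn.sep fun v hv => ?_
    obtain ⟨G, hG, h1⟩ := (h.mono hv).exists
    obtain ⟨v', -, h2, h3⟩ := G.dir _ hG _ h1
    exact ⟨v', h2, h3⟩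

theorem Cn.le_tr_iff_FA {r : Cn Ω md ζ} (h : ξ ≤ ζ) {p : Cn Ω md ξ} : tr ξ r ≤ p ↔ FA r fun G => p ∈ (rs ξ G).car := by
  rw [← le_tr_iff h, Cn.le_iff_FA]
  simp only [mem_rs h]

end Pool.Agent.Lib.MP_011f3a_lc.LM

/-! # Mixing (module D-MIX)

`exists_gl` with `γ = ξ`, the index type of the elements `x = (c, q, …)` of `C`, `A x = {a | a ≤ x.1}`, `ρ x = con x.2`. At most one index is active (`Inc`). `r ≤ p`: `Cn.sep`. -/

namespace Pool.Agent.Lib.MP_011f3a_lc.LM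

variable {Ω : Type} [LinearOrder Ω] [WellFoundedLT Ω] {md : Md} {ζ ξ η : Ω}

theorem exists_mix (hξ : ξ ≤ ζ) (p : Cn Ω md ζ) (w : Cn Ω md ξ) (hw : w ≤ tr ξ p) {Y : Type} (con : Y → Cn Ω md ζ)
    (C : Set (Cn Ω md ξ × Y)) (hC : C.Countable) (hI : ∀ x ∈ C, ∀ y ∈ C, x ≠ y → Inc x.1 y.1)
    (hpre : ∀ q ≤ w, ∃ r ≤ q, ∃ x ∈ C, r ≤ x.1) (hx : ∀ x ∈ C, x.1 ≤ tr ξ (con x.2) ∧ con x.2 ≤ p) :
    ∃ r : Cn Ω md ζ, tr ξ r = w ∧ r ≤ p ∧ (∀ v ≤ r, ∀ x ∈ C, tr ξ v ≤ x.1 → v ≤ con x.2) ∧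
      (∀ v ≤ r, ∃ v' ≤ v, ∃ x ∈ C, tr ξ v' ≤ x.1 ∧ v' ≤ con x.2) ∧
      ∀ η, ξ ≤ η → η < ζ → FA (tr η r) fun G => ∃ x ∈ C, x.1 ∈ (rs ξ G).car ∧ tr η (con x.2) ∈ G.car ∧
        ev (r.co η) G = ev ((con x.2).co η) G := by
  have hcnt : Countable C := hC.to_subtype
  let A : C → Set (Cn Ω md ξ) := fun x => {a | a ≤ x.1.1}
  let ρ : C → Cn Ω md ζ := fun x => con x.1.2
  have hA : ∀ i, Opn (A i) := fun i a ha a' ha' => le_trans ha' ha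
  have hmt : FA w fun G => ∃ x : C, x.1.1 ∈ G.car := by
    have h1 : FA w (mt {c | ∃ x ∈ C, c ≤ x.1}) := FA_mt_dnsB fun q hq => by
      obtain ⟨r, hr, x, hx, hrx⟩ := hpre q hq
      exact ⟨r, hr, x, hx, hrx⟩
    refine h1.imp fun G _ h2 => ?_
    obtain ⟨c, ⟨x, hx, hcx⟩, hcG⟩ := h2
    exact ⟨⟨x, hx⟩, G.up _ hcG _ hcx⟩
  have hkey : ∀ η, ξ ≤ η → ∀ G : Flt (Cn Ω md η), ∀ x : C, x.1.1 ∈ (rs ξ G).car →
      IT ξ A ρ η G = ev ((con x.1.2).co η) G := by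
    intro η hη G x hxG
    ext t
    constructor
    · intro h
      exact h x ⟨x.1.1, le_refl x.1.1, hxG⟩
    · rintro h j ⟨c, hc, hcG⟩
      have h1 : j.1.1 ∈ (rs ξ G).car := (rs ξ G).up _ hcG _ hc
      have h2 : j.1 = x.1 := by
        by_contra hne
        exact Flt.compat h1 hxG (hI _ j.2 _ x.2 hne)
      show t ∈ ev ((con j.1.2).co η) G
      rw [h2]
      exact h
  obtain ⟨r, hr1, hr2, hr3, hr4⟩ := exists_gl hξ w A ρ hA (fun i a ha _ => le_trans ha (hx _ i.2).1) (by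
    intro η hη hηζ v hv hF
    have h1 : FA v fun G => ∀ i : C, tr η (con i.1.2) ∈ G.car → TC md (ev ((con i.1.2).co η) G) :=
      FA.all fun i => ((con i.1.2).good η).cond v
    have h2 : FA v fun G => ∃ x : C, x.1.1 ∈ (rs ξ G).car :=
      FA.proj (Ψ := fun G => ∃ x : C, x.1.1 ∈ G.car) hη (hmt.mono hv)
    refine FA.imp₂ (hF.and h1) h2 fun G _ h3 h4 => ?_
    obtain ⟨x, hxG⟩ := h4
    rw [hkey η hη G x hxG]
    exact h3.2 x (h3.1 x ⟨x.1.1, le_refl x.1.1, hxG⟩))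
  have h5 : ∀ v ≤ r, ∀ x ∈ C, tr ξ v ≤ x.1 → v ≤ con x.2 := by
    intro v hv x hxC hvx
    have h6 := hr3 ζ hξ le_rfl v (by rwa [tr_self]) ⟨x, hxC⟩ hvx
    rwa [tr_self] at h6
  have h7 : ∀ v ≤ r, ∃ v' ≤ v, ∃ x ∈ C, tr ξ v' ≤ x.1 ∧ v' ≤ con x.2 := by
    intro v hv
    have h8 : tr ξ v ≤ w := by
      rw [← hr1]
      exact tr_mono hv ξ
    obtain ⟨u, hu, x, hxC, hux⟩ := hpre _ h8
    obtain ⟨v', k1, _, k3, _⟩ := exists_join hξ v u hu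
    have k4 : tr ξ v' ≤ x.1 := by
      rw [k1]
      exact hux
    exact ⟨v', k3, x, hxC, k4, h5 v' (k3.trans hv) x hxC k4⟩
  refine ⟨r, hr1, Cn.sep fun v hv => ?_, h5, h7, fun η hη hηζ => ?_⟩
  · obtain ⟨v', k1, x, hxC, _, k2⟩ := h7 v hv
    exact ⟨v', k1, k2.trans (hx x hxC).2⟩
  · have h9 : FA (tr η r) fun G => ∃ x : C, x.1.1 ∈ (rs ξ G).car := by
      refine FA.proj (Ψ := fun G => ∃ x : C, x.1.1 ∈ G.car) hη ?_
      rw [tr_tr _ hη, hr1]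
      exact hmt
    refine FA.imp₂ ((hr4 η hη hηζ.le).and h9) (bt_ev_mkn (bt_IT hη A ρ) (tr η r)) fun G _ h10 h11 => ?_
    obtain ⟨x, hxG⟩ := h10.2
    refine ⟨x.1, x.2, hxG, h10.1 x ⟨x.1.1, le_refl x.1.1, hxG⟩, ?_⟩
    rw [hr2 η hη hηζ, h11, hkey η hη G x hxG]

end Pool.Agent.Lib.MP_011f3a_lc.LM
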