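import Pool.Agent.Lib.MP_011f3a_lc.LM.I.TpB

/-! # The generic branch and the trees of the conditions (module I-GB)

`gb_sub`: let `G ∋ p` be sufficiently generic and `s ∈ gb ξ G`; some `r ∈ G` is below `p` and `tp ζ ξ s`; it is forced by `tr ξ r` that `r(ξ)` is a condition
with all nodes comparable with `s`, so `s ∈ r(ξ) ⊆ p(ξ)` (`TC.of_subset_abv`). To have this for all `r ∈ G` use for each `s` the dense set of the
`r` with: `r` is not compatible with `p` and `tp ζ ξ s`, or `r` is below both and decides... (simplest: show that `D s = {r | Inc r p ∨ ¬ (r ≤ tp ζ ξ s) ∧ … ∨ FA (tr ξ r) (s ∈ p(ξ))}` is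
dense and use `FA_mt_dns`, `FA.proj`). -/

namespace Pool.Agent.Lib.MP_011f3a_lc.LM

variable {Ω : Type} [LinearOrder Ω] [WellFoundedLT Ω] {md : Md} {ζ ξ η : Ω}

theorem gb_sub (h : ξ < ζ) (p : Cn Ω md ζ) : FA p fun G => gb ξ G ⊆ vl p ξ G := by
  refine FA.all fun s => FA_local fun w' hw' => ?_
  obtain ⟨v, hv, h1 | h1⟩ := bpr_gb (ζ := ζ) (ξ := ξ) s w'
  · have h2 : FA v (mt {tp ζ ξ s}) := h1.imp fun G _ h3 => ⟨_, rfl, h3⟩
    obtain ⟨v', hv', c, hc, h3⟩ := frc_of_FA h2 v le_rfl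
    rw [Set.mem_singleton_iff.1 hc] at h3
    have h4 := (le_tp_iff h).1 h3
    have h5 : FA (tr ξ v') fun G => s ∈ ev (p.co ξ) G :=
      (h4.and (Cn.good v' ξ)).imp₂ (FA.vl_sub h (hv'.trans (hv.trans hw'))) fun G _ h6 h7 => h7 (TC.of_subset_abv h6.2 h6.1)
    exact ⟨v', hv'.trans hv, (FA.proj h.le h5).imp fun G _ h6 _ => h6⟩
  · exact ⟨v, hv, h1.imp fun G _ h2 h3 => (h2 h3).elim⟩

/-- if the tree at `ξ` is forced to be contained in `T` then the branch is -/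
theorem gb_sub_of (h : ξ < ζ) (p : Cn Ω md ζ) {T : Flt (Cn Ω md ξ) → Set (List ℕ)}
    (hT : FA (tr ξ p) fun G => ev (p.co ξ) G ⊆ T G) : FA p fun G => gb ξ G ⊆ T (rs ξ G) :=
  (gb_sub h p).imp₂ (FA.proj h.le hT) fun _ _ h1 h2 => h1.trans h2

/-- `p` forces `s ∈ gb ξ` iff `p` is below `tp` -/
theorem le_tp_of_FA (h : ξ < ζ) {p : Cn Ω md ζ} {s : List ℕ} (hs : FA p fun G => s ∈ gb ξ G) : p ≤ tp ζ ξ s := by
  rw [le_tp_iff h]
  refine FA.all fun t => ?_
  by_cases ht : t <+: s ∨ s <+: t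
  · exact FA.of_forall fun G _ _ => ⟨trivial, ht⟩
  · have h1 : FA (tr ξ p) fun G => ¬ t ∈ ev (p.co ξ) G := by
      refine (bt_ev _ t).not.of_forall fun v hv h2 => ?_
      obtain ⟨r, hr, h3, hrp, -⟩ := exists_join h.le p v hv
      rw [← hr, ← h3 ξ le_rfl] at h2
      obtain ⟨r', h4, -, -, -, h5⟩ := exists_restr h r (h2.imp fun G _ h6 => not_not.1 h6)
      obtain ⟨G, hG, h6, h7⟩ := ((hs.mono (h4.trans hrp)).and (gb_branch h r')).exists
      exact ht (h7.compar (G.up _ hG _ h5) h6)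
    exact h1.imp fun G _ h2 h3 => (h2 h3).elim

end Pool.Agent.Lib.MP_011f3a_lc.LM
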