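import Pool.Agent.Lib.MP_011f3a_lc.LM.B.Comb
import Pool.Agent.Lib.MP_011f3a_lc.LM.D.PLe
import Pool.Agent.Lib.MP_011f3a_lc.LM.I.GL
import Pool.Agent.Lib.MP_011f3a_lc.LM.I.Gb

/-! # The general limit lemma with a tree at the first coordinate (module I-GLP)

Let `γ` be the successor of `ξ` (`exists_sc`) and apply `exists_gl` with `w` and `T` as condition of `P_γ` (`exists_two`) and
`A i = {a | tr ξ a ∈ B i ∧ a ≤ tp γ ξ (s i)}`. For `a ∈ A i`, `a ≤ (w, T)`: `a ≤ tr γ (ρ i)` by `Cn.le_of` (with `ξ`): at the coordinate `ξ` `ev (a.co ξ) ⊆ T ∩ abv univ (s i)`. A filter on `P_η`, `η ≥ γ`,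
meets `A i` in its restriction to `γ` iff `Act`. -/

namespace Pool.Agent.Lib.MP_011f3a_lc.LM

variable {Ω : Type} [LinearOrder Ω] [WellFoundedLT Ω] {md : Md} {ζ ξ η : Ω} {ι : Type}

/-- the index `i` is active -/
def Act (ξ : Ω) (B : ι → Set (Cn Ω md ξ)) (s : ι → List ℕ) (i : ι) (G : Flt (Cn Ω md η)) : Prop :=
  mt (B i) (rs ξ G) ∧ s i ∈ gb ξ G

/-- the intersection of the trees of the active conditions -/
def IP (ξ : Ω) (B : ι → Set (Cn Ω md ξ)) (s : ι → List ℕ) (ρ : ι → Cn Ω md ζ) (η : Ω) (G : Flt (Cn Ω md η)) :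
    Set (List ℕ) :=
  {t | ∀ i, Act ξ B s i G → t ∈ ev ((ρ i).co η) G}

theorem bpr_act (h : ξ ≤ η) (B : ι → Set (Cn Ω md ξ)) (s : ι → List ℕ) (i : ι) :
    BPr fun G : Flt (Cn Ω md η) => Act ξ B s i G :=
  (BPr.proj h (BPr.mt (B i))).and (bpr_gb (s i))

theorem bt_IP [Countable ι] (h : ξ ≤ η) (B : ι → Set (Cn Ω md ξ)) (s : ι → List ℕ) (ρ : ι → Cn Ω md ζ) :
    BT (IP ξ B s ρ η) :=
  fun t => BPr.all fun i => (bpr_act h B s i).imp (BPr.mt ((ρ i).co η t))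

theorem act_rs {θ : Ω} (h : ξ < η) (h' : η ≤ θ) (B : ι → Set (Cn Ω md ξ)) (s : ι → List ℕ) (i : ι) (G : Flt (Cn Ω md θ)) :
    Act ξ B s i (rs η G) ↔ Act ξ B s i G := by
  unfold Act
  rw [rs_rs G h.le h', gb_rs G h h']

/-- the corresponding sets of conditions on the successor of `ξ` -/
private def GLp_A (γ ξ : Ω) (B : ι → Set (Cn Ω md ξ)) (s : ι → List ℕ) (i : ι) : Set (Cn Ω md γ) :=
  {a | tr ξ a ∈ B i ∧ a ≤ tp γ ξ (s i)}

private theorem GLp_mt {γ : Ω} (h : ξ < γ) (h' : γ ≤ η) {B : ι → Set (Cn Ω md ξ)} (hB : ∀ i, Opn (B i))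
    (s : ι → List ℕ) (i : ι) (G : Flt (Cn Ω md η)) :
    mt (GLp_A γ ξ B s i) (rs γ G) ↔ Act ξ B s i G := by
  constructor
  · rintro ⟨a, ⟨ha1, ha2⟩, haG⟩
    refine ⟨⟨tr ξ a, ha1, ?_⟩, ?_⟩
    · have h1 := tr_mem_rs haG ξ
      rwa [rs_rs G h.le h'] at h1
    · rw [← gb_rs G h h']
      exact (rs γ G).up _ haG _ ha2
  · rintro ⟨h1, h2⟩
    rw [← rs_rs G h.le h'] at h1
    obtain ⟨p, hp, hpB⟩ := (mt_rs_iff (hB i) h.le).1 h1
    rw [← gb_rs G h h'] at h2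
    obtain ⟨r, hr, hr1, hr2⟩ := (rs γ G).dir _ hp _ h2
    exact ⟨r, ⟨hB i _ hpB _ (tr_mono hr1 ξ), hr2⟩, hr⟩

theorem exists_glp [Countable ι] (hξ : ξ < ζ) (w : Cn Ω md ξ) {T : Flt (Cn Ω md ξ) → Set (List ℕ)} (hT : BT T)
    (hw : FA w fun G => TC md (T G)) (B : ι → Set (Cn Ω md ξ)) (s : ι → List ℕ) (ρ : ι → Cn Ω md ζ)
    (hB : ∀ i, Opn (B i))
    (hρ : ∀ i, ∀ b ∈ B i, b ≤ w → b ≤ tr ξ (ρ i) ∧ FA b fun G => T G ∩ abv Set.univ (s i) ⊆ ev ((ρ i).co ξ) G)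
    (h : ∀ η, ξ < η → η < ζ → ∀ v : Cn Ω md η, tr ξ v ≤ w → (FA v fun G => gb ξ G ⊆ T (rs ξ G)) →
      (FA v fun G => ∀ i, Act ξ B s i G → tr η (ρ i) ∈ G.car) → FA v fun G => TC md (IP ξ B s ρ η G)) :
    ∃ r : Cn Ω md ζ, tr ξ r = w ∧ r.co ξ = mkn T ∧ (∀ η, ξ < η → η < ζ → r.co η = mkn (IP ξ B s ρ η)) ∧
      (∀ v ≤ r, ∀ i, tr ξ v ∈ B i → v ≤ tp ζ ξ (s i) → v ≤ ρ i) ∧
      ∀ η, ξ < η → η ≤ ζ → FA (tr η r) fun G => ∀ i, Act ξ B s i G → tr η (ρ i) ∈ G.car := by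
  obtain ⟨γ, hγ, hξγ, hs⟩ := exists_sc hξ
  obtain ⟨W, hW1, hW2⟩ := exists_two hξγ hs w hT hw
  have hge : ∀ η, ξ < η → γ ≤ η := fun η hη => not_lt.1 fun h1 => not_lt.2 (hs η h1) hη
  have hA : ∀ i, Opn (GLp_A γ ξ B s i) := fun i a ha a' ha' =>
    ⟨hB i _ ha.1 _ (tr_mono ha' ξ), ha'.trans ha.2⟩
  have hWle : ∀ a : Cn Ω md γ, a ≤ W → FA (tr ξ a) fun G => ev (a.co ξ) G ⊆ T G := by
    intro a ha
    have h1 := Cn.le_iff.1 ha ξ hξγ
    rw [hW2] at h1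
    refine FA.imp₂ h1 (bt_ev_mkn hT (tr ξ a)) fun G _ h2 h3 => ?_
    rw [← h3]
    exact h2
  have hρ' : ∀ i, ∀ a ∈ GLp_A γ ξ B s i, a ≤ W → a ≤ tr γ (ρ i) := by
    intro i a ha haW
    have h0 : tr ξ a ≤ w := by
      rw [← hW1]
      exact tr_mono haW ξ
    obtain ⟨h1, h2⟩ := hρ i _ ha.1 h0
    refine Cn.le_of (ξ := ξ) ?_ fun η hη hηγ => ?_
    · rw [tr_tr _ hξγ.le]
      exact h1
    · obtain rfl : η = ξ := le_antisymm (hs η hηγ) hη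
      rw [co_tr _ hηγ]
      refine FA.imp₂ ((hWle a haW).and ((le_tp_iff hηγ).1 ha.2)) h2 fun G _ h3 h4 t ht => ?_
      exact h4 ⟨h3.1 ht, h3.2 ht⟩
  have hIT : ∀ η, γ ≤ η → IT γ (GLp_A γ ξ B s) ρ η = IP ξ B s ρ η := by
    intro η hη
    funext G
    ext t
    show (∀ i, mt (GLp_A γ ξ B s i) (rs γ G) → t ∈ ev ((ρ i).co η) G)
      ↔ ∀ i, Act ξ B s i G → t ∈ ev ((ρ i).co η) G
    exact forall_congr' fun i => by rw [GLp_mt hξγ hη hB s i G]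
  obtain ⟨r, hr1, hr2, hr3, hr4⟩ := exists_gl hγ W (GLp_A γ ξ B s) ρ hA hρ' (by
    intro η hη hηζ v hv hF
    rw [hIT η hη]
    have h1 : tr ξ v = tr ξ (tr γ v) := (tr_tr v hξγ.le).symm
    refine h η (hξγ.trans_le hη) hηζ v ?_ ?_ ?_
    · rw [h1, ← hW1]
      exact tr_mono hv ξ
    · refine gb_sub_of (hξγ.trans_le hη) v ?_
      have h2 := hWle _ hv
      rwa [co_tr _ hξγ, ← h1] at h2
    · exact hF.imp fun G _ h2 i hi => h2 i ((GLp_mt hξγ hη hB s i G).2 hi))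
  refine ⟨r, ?_, ?_, fun η hη hηζ => ?_, fun v hv i hi hi' => ?_, fun η hη hηζ => ?_⟩
  · rw [← tr_tr r hξγ.le, hr1, hW1]
  · rw [← hW2, ← hr1, co_tr _ hξγ]
  · rw [hr2 η (hge η hη) hηζ, hIT η (hge η hη)]
  · have h1 := hr3 ζ hγ le_rfl v (by rwa [tr_self]) i ⟨by rwa [tr_tr v hξγ.le], by
      rw [← tr_tp (ζ := ζ) (s i) hξγ hγ]
      exact tr_mono hi' γ⟩
    rwa [tr_self] at h1
  · exact (hr4 η (hge η hη) hηζ).imp fun G _ h2 i hi => h2 i ((GLp_mt hξγ (hge η hη) hB s i G).2 hi)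

end Pool.Agent.Lib.MP_011f3a_lc.LM

/-! # Combination of conditions above different children (module D-COMB)

`x = (n, ρ, …)` (`nu x = n`, `co x = ρ`): below the child `a ++ [n]` of `a` the condition `ρ` is used. Apply `exists_glp` with `T G = ⋃ l, ev ((cn (e l G)).co ξ) G`, the index type
`ι = {(l, x, y) | x ∈ C (l + 1), x.2 = h ++ [y]}` (countable, `C` from `GSys.cap`), `B i = {b | b ≤ x.1}`, `s i = a ++ [nu y]`, `ρ i = cn y`. For a filter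
`G ∋ x.1` one has `e l G = y` (`GSys.val`). `CoH` (B/Comb.lean) holds for the sequences `nu (e l G)`, `ev ((cn (e l G)).co ξ) G` (`GSys.fa`). Two active indices have the same `y`,
so `IP` is the tree of the active condition. -/

namespace Pool.Agent.Lib.MP_011f3a_lc.LM

variable {Ω : Type} [LinearOrder Ω] [WellFoundedLT Ω] {md : Md} {ζ ξ η : Ω}

/-- the condition `ρ` may be used below the child `a ++ [n]`, as far as `c` knows -/
structure CmbOk (p : Cn Ω md ζ) (a : List ℕ) (c : Cn Ω md ξ) (n : ℕ) (ρ : Cn Ω md ζ) : Prop where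
  le : c ≤ tr ξ ρ
  lep : ρ ≤ p
  sub : FA c fun G => ev (ρ.co ξ) G ⊆ abv Set.univ (a ++ [n])
  nm : FA c fun G => Nm (ev (ρ.co ξ) G)
  lav : md = Md.laver → FA c fun G => St (ev (ρ.co ξ) G) (a ++ [n])

theorem CmbOk.mono {p : Cn Ω md ζ} {a : List ℕ} {c c' : Cn Ω md ξ} {n : ℕ} {ρ : Cn Ω md ζ} (h : CmbOk p a c n ρ) (hc : c' ≤ c) :
    CmbOk p a c' n ρ where
  le := hc.trans h.le
  lep := h.lep
  sub := h.sub.mono hc
  nm := h.nm.mono hc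
  lav := fun hl => (h.lav hl).mono hc

section comb

variable {E : Type} {C : ℕ → Set (Cn Ω md ξ × List E)}

/-- the conditions below the condition of an index -/
private def Comb_B (i : (l : ℕ) × C (l + 1)) : Set (Cn Ω md ξ) := {b | b ≤ i.2.1.1}

private theorem Comb_B_opn (i : (l : ℕ) × C (l + 1)) : Opn (Comb_B i) :=
  fun _ hb _ hb' => le_trans hb' hb

private theorem Comb_key {a : List ℕ} {nu : E → ℕ} {cn : E → Cn Ω md ζ}
    {e : ℕ → Flt (Cn Ω md ξ) → E} {yy : ((l : ℕ) × C (l + 1)) → E}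
    (hyy : ∀ i : (l : ℕ) × C (l + 1), ∀ G : Flt (Cn Ω md ξ), i.2.1.1 ∈ G.car → e i.1 G = yy i)
    (G : Flt (Cn Ω md η))
    (h1 : CoH md a (fun l => nu (e l (rs ξ G))) fun l => ev ((cn (e l (rs ξ G))).co ξ) (rs ξ G))
    (h2 : ∀ l, ∃ x ∈ C (l + 1), x.1 ∈ (rs ξ G).car) (h3 : Branch (gb ξ G))
    (h4 : gb ξ G ⊆ ⋃ l, ev ((cn (e l (rs ξ G))).co ξ) (rs ξ G)) :
    ∃ i : (l : ℕ) × C (l + 1), Act ξ Comb_B (fun i => a ++ [nu (yy i)]) i G ∧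
      yy i = e i.1 (rs ξ G) ∧ ∀ j, Act ξ Comb_B (fun i => a ++ [nu (yy i)]) j G → yy j = yy i := by
  obtain ⟨l, hl⟩ := h1.branch h3 h4
  obtain ⟨x, hx, hxG⟩ := h2 l
  have h5 : e l (rs ξ G) = yy ⟨l, x, hx⟩ := hyy ⟨l, x, hx⟩ _ hxG
  refine ⟨⟨l, x, hx⟩, ⟨⟨x.1, le_refl x.1, hxG⟩, ?_⟩, h5.symm, ?_⟩
  · show a ++ [nu (yy ⟨l, x, hx⟩)] ∈ gb ξ G
    rw [← h5]
    exact hl
  · rintro j ⟨⟨b, hb, hbG⟩, hj⟩
    have h6 : j.2.1.1 ∈ (rs ξ G).car := (rs ξ G).up _ hbG _ hb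
    have h7 : e j.1 (rs ξ G) = yy j := hyy j _ h6
    have hj' : a ++ [nu (e j.1 (rs ξ G))] ∈ gb ξ G := by
      rw [h7]
      exact hj
    have h8 : a ++ [nu (e j.1 (rs ξ G))] = a ++ [nu (e l (rs ξ G))] :=
      (h3.2 _ hj' _ hl (by simp)).eq_of_length (by simp)
    have h9 : nu (e j.1 (rs ξ G)) = nu (e l (rs ξ G)) := by simpa using h8
    have h10 : j.1 = l := h1.mono.injective h9
    rw [← h7, ← h5, h10]

end comb

theorem exists_comb (hξ : ξ < ζ) (p : Cn Ω md ζ) (w w' : Cn Ω md ξ) (hw : w ≤ tr ξ p) (hw' : w' ≤ w) (a : List ℕ) {E : Type}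
    (nu : E → ℕ) (cn : E → Cn Ω md ζ) {Ok : Cn Ω md ξ → List E → Prop} {A : ℕ → Set (Cn Ω md ξ × List E)}
    {e : ℕ → Flt (Cn Ω md ξ) → E} (hg : GSys Ok w A e)
    (hok : ∀ c h, Ok c h → ∀ y ∈ h, CmbOk p a c (nu y) (cn y)) (hpw : ∀ c h, Ok c h → h.Pairwise fun x y => nu x < nu y)
    (hc : ∀ l, Cap w' {c | ∃ x ∈ A l, c ≤ x.1}) :
    ∃ r : Cn Ω md ζ, r ≤ p ∧ tr ξ r = w' ∧
      (FA w' fun G => ev (r.co ξ) G = ⋃ l, ev ((cn (e l G)).co ξ) G) ∧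
      (FA w' fun G => St (ev (r.co ξ) G) a ∧ Nm (ev (r.co ξ) G)) ∧
      (∃ Y : Set E, Y.Countable ∧ (∀ y ∈ Y, ∃ c h, Ok c h ∧ y ∈ h) ∧ ∀ v ≤ r, ∃ v' ≤ v, ∃ y ∈ Y, v' ≤ cn y) ∧
      (FA r fun G => ∀ l, a ++ [nu (e l (rs ξ G))] ∈ gb ξ G → cn (e l (rs ξ G)) ∈ G.car) ∧
      ∀ η, ξ < η → η < ζ → FA (tr η r) fun G => ∃ l, tr η (cn (e l (rs ξ G))) ∈ G.car ∧
        ev (r.co η) G = ev ((cn (e l (rs ξ G))).co η) G := by
  classical
  obtain ⟨C, hC1, hC2, hC3⟩ := hg.cap hw' hc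
  -- the last entry
  have hlast : ∀ i : (l : ℕ) × C (l + 1), ∃ y, y ∈ i.2.1.2 ∧
      ∀ G : Flt (Cn Ω md ξ), i.2.1.1 ∈ G.car → e i.1 G = y := by
    intro i
    have hne : i.2.1.2 ≠ [] := by
      have := hg.len (i.1 + 1) _ (hC2 _ i.2.2)
      intro h
      rw [h] at this
      simp at this
    refine ⟨i.2.1.2.getLast hne, List.getLast_mem hne, fun G hG => ?_⟩
    have h1 := hg.val (i.1 + 1) _ (hC2 _ i.2.2) G hG
    have h2 : i.2.1.2.getLast? = some (e i.1 G) := by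
      rw [h1, List.ofFn_succ', List.concat_eq_append]
      simp
    rw [List.getLast?_eq_getLast_of_ne_nil hne] at h2
    exact (Option.some.inj h2).symm
  choose yy hyy1 hyy2 using hlast
  have hcount : ∀ l, Countable (C (l + 1)) := fun l => (hC1 (l + 1)).to_subtype
  have hok' : ∀ i : (l : ℕ) × C (l + 1), CmbOk p a i.2.1.1 (nu (yy i)) (cn (yy i)) := fun i =>
    hok _ _ (hg.ok _ _ (hC2 _ i.2.2)) _ (hyy1 i)
  -- the facts forced by `w`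
  have hgood : FA w fun G => (CoH md a (fun l => nu (e l G)) fun l => ev ((cn (e l G)).co ξ) G) ∧
      (∀ l, Nm (ev ((cn (e l G)).co ξ) G)) ∧ ∀ l, ev ((cn (e l G)).co ξ) G ⊆ ev (p.co ξ) G := by
    have h1 := hg.fa (Ψ := fun h G => (h.Pairwise fun x y => nu x < nu y) ∧ ∀ y ∈ h,
        (TC md (ev ((cn y).co ξ) G) ∧ ev ((cn y).co ξ) G ⊆ abv Set.univ (a ++ [nu y])) ∧
        (Nm (ev ((cn y).co ξ) G) ∧ ev ((cn y).co ξ) G ⊆ ev (p.co ξ) G) ∧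
        (md = Md.laver → St (ev ((cn y).co ξ) G) (a ++ [nu y]))) (by
      intro c h hch
      have hcnt : Countable {y // y ∈ h} := (List.finite_toSet h).countable.to_subtype
      have h2 : FA c fun G => ∀ y : {y // y ∈ h},
        (TC md (ev ((cn y.1).co ξ) G) ∧ ev ((cn y.1).co ξ) G ⊆ abv Set.univ (a ++ [nu y.1])) ∧
        (Nm (ev ((cn y.1).co ξ) G) ∧ ev ((cn y.1).co ξ) G ⊆ ev (p.co ξ) G) ∧
        (md = Md.laver → St (ev ((cn y.1).co ξ) G) (a ++ [nu y.1])) := by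
        refine FA.all fun y => ?_
        have hy := hok c h hch y.1 y.2
        refine ((((cn y.1).good ξ).mono hy.le).and hy.sub).and
          ((hy.nm.and ((Cn.le_iff.1 hy.lep ξ hξ).mono hy.le)).and ?_)
        by_cases hl : md = Md.laver
        · exact (hy.lav hl).imp fun G _ h3 _ => h3
        · exact FA.of_forall fun G _ h3 => absurd h3 hl
      exact h2.imp fun G _ h3 => ⟨hpw c h hch, fun y hy => h3 ⟨y, hy⟩⟩)
    refine h1.imp fun G _ h2 => ?_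
    have h3 : ∀ l, (TC md (ev ((cn (e l G)).co ξ) G) ∧
        ev ((cn (e l G)).co ξ) G ⊆ abv Set.univ (a ++ [nu (e l G)])) ∧
        (Nm (ev ((cn (e l G)).co ξ) G) ∧ ev ((cn (e l G)).co ξ) G ⊆ ev (p.co ξ) G) ∧
        (md = Md.laver → St (ev ((cn (e l G)).co ξ) G) (a ++ [nu (e l G)])) := by
      intro l
      refine (h2 (l + 1)).2 (e l G) ?_
      rw [List.mem_ofFn]
      exact ⟨⟨l, Nat.lt_succ_self l⟩, rfl⟩
    refine ⟨⟨fun i j hij => ?_, fun l => (h3 l).1.1, fun l => (h3 l).1.2,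
      fun hl l => (h3 l).2.2 hl⟩, fun l => (h3 l).2.1.1, fun l => (h3 l).2.1.2⟩
    have h4 := (h2 (j + 1)).1
    rw [List.pairwise_ofFn] at h4
    exact h4 (i := ⟨i, by omega⟩) (j := ⟨j, by omega⟩) hij
  have hgood' := hgood.mono hw'
  have hmt : FA w' fun G => ∀ l, ∃ x ∈ C (l + 1), x.1 ∈ G.car := by
    refine FA.all fun l => ?_
    have h1 : FA w' (mt {c | ∃ x ∈ C (l + 1), c ≤ x.1}) := FA_mt_dnsB fun q hq => by
      obtain ⟨r, hr, x, hx, hrx⟩ := hC3 (l + 1) q hq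
      exact ⟨r, hr, x, hx, hrx⟩
    refine h1.imp fun G _ h2 => ?_
    obtain ⟨c, ⟨x, hx, hcx⟩, hcG⟩ := h2
    exact ⟨x, hx, G.up _ hcG _ hcx⟩
  -- the tree at `ξ`
  have hT : BT fun G : Flt (Cn Ω md ξ) => ⋃ l, ev ((cn (e l G)).co ξ) G :=
    bt_union fun l => bt_of_dv (hg.dv l) (T := fun y G => ev ((cn y).co ξ) G) fun y => bt_ev _
  -- the active index
  have hkey : ∀ η, ξ < η → ∀ v : Cn Ω md η, tr ξ v ≤ w' →
      (FA v fun G => gb ξ G ⊆ ⋃ l, ev ((cn (e l (rs ξ G))).co ξ) (rs ξ G)) →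
      FA v fun G => ∃ i : (l : ℕ) × C (l + 1), Act ξ Comb_B (fun i => a ++ [nu (yy i)]) i G ∧
        yy i = e i.1 (rs ξ G) ∧ ∀ j, Act ξ Comb_B (fun i => a ++ [nu (yy i)]) j G → yy j = yy i := by
    intro η hη v hv hF
    have h1 := (hgood'.mono hv).proj hη.le
    have h2 := (hmt.mono hv).proj hη.le
    refine FA.imp₂ (h1.and h2) ((gb_branch hη v).and hF) fun G _ h3 h4 => ?_
    exact Comb_key hyy2 G h3.1.1 h3.2 h4.1 h4.2
  have hIP : ∀ η, ∀ G : Flt (Cn Ω md η), ∀ i : (l : ℕ) × C (l + 1),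
      Act ξ Comb_B (fun i => a ++ [nu (yy i)]) i G →
      (∀ j, Act ξ Comb_B (fun i => a ++ [nu (yy i)]) j G → yy j = yy i) →
      IP ξ Comb_B (fun i => a ++ [nu (yy i)]) (fun i => cn (yy i)) η G = ev ((cn (yy i)).co η) G := by
    intro η G i hi hj
    ext t
    constructor
    · intro h
      exact h i hi
    · intro h j hj'
      show t ∈ ev ((cn (yy j)).co η) G
      rw [hj j hj']
      exact h
  obtain ⟨r, hr1, hr2, hr3, hr4, hr5⟩ := exists_glp hξ w' hT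
    (hgood'.imp fun G _ h => h.1.tc_union) (Comb_B (C := C)) (fun i => a ++ [nu (yy i)])
    (fun i => cn (yy i)) Comb_B_opn (by
      intro i b hb hbw
      refine ⟨le_trans hb (hok' i).le, (hgood'.mono hbw).imp fun G hG h1 => ?_⟩
      have h2 : e i.1 G = yy i := hyy2 i G (G.up _ hG _ hb)
      have h3 := h1.1.sub_child i.1
      rw [h2] at h3
      exact h3) (by
      intro η hη hηζ v hv hF1 hF2
      have h1 : FA v fun G => ∀ i : (l : ℕ) × C (l + 1), tr η (cn (yy i)) ∈ G.car →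
          TC md (ev ((cn (yy i)).co η) G) := FA.all fun i => ((cn (yy i)).good η).cond v
      refine FA.imp₂ (hkey η hη v hv hF1) (hF2.and h1) fun G _ h2 h3 => ?_
      obtain ⟨i, hi, _, hj⟩ := h2
      rw [hIP η G i hi hj]
      exact h3.2 i (h3.1 i hi))
  have htr : ∀ η, ξ < η → tr ξ (tr η r) = w' := fun η hη => by rw [tr_tr _ hη.le, hr1]
  -- the branch is contained in the union
  have hgb : ∀ η, ξ < η → η ≤ ζ →
      FA (tr η r) fun G => gb ξ G ⊆ ⋃ l, ev ((cn (e l (rs ξ G))).co ξ) (rs ξ G) := by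
    intro η hη _
    refine gb_sub_of (T := fun G => ⋃ l, ev ((cn (e l G)).co ξ) G) hη _ ?_
    rw [co_tr _ hη, htr η hη, hr2]
    exact (bt_ev_mkn hT w').imp fun G _ h => h.le
  have hact : ∀ η, ξ < η → η ≤ ζ → FA (tr η r) fun G => ∃ i : (l : ℕ) × C (l + 1),
      yy i = e i.1 (rs ξ G) ∧ tr η (cn (yy i)) ∈ G.car ∧
        IP ξ Comb_B (fun i => a ++ [nu (yy i)]) (fun i => cn (yy i)) η G
          = ev ((cn (yy i)).co η) G := by
    intro η hη hηζ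
    refine FA.imp₂ (hkey η hη _ (htr η hη).le (hgb η hη hηζ)) (hr5 η hη hηζ) fun G _ h1 h2 => ?_
    obtain ⟨i, hi, hi', hj⟩ := h1
    exact ⟨i, hi', h2 i hi, hIP η G i hi hj⟩
  have hco : ∀ η, ξ < η → η < ζ → FA (tr η r) fun G => ∃ i : (l : ℕ) × C (l + 1),
      yy i = e i.1 (rs ξ G) ∧ tr η (cn (yy i)) ∈ G.car ∧
        ev (r.co η) G = ev ((cn (yy i)).co η) G := by
    intro η hη hηζ
    refine FA.imp₂ (hact η hη hηζ.le) (bt_ev_mkn (bt_IP hη.le Comb_B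
      (fun i : (l : ℕ) × C (l + 1) => a ++ [nu (yy i)]) (fun i => cn (yy i))) (tr η r))
      fun G _ h1 h2 => ?_
    obtain ⟨i, hi, hi', hj⟩ := h1
    refine ⟨i, hi, hi', ?_⟩
    rw [hr3 η hη hηζ, h2, hj]
  refine ⟨r, ?_, hr1, ?_, ?_, ?_, ?_, ?_⟩
  · refine Cn.le_of (ξ := ξ) ?_ fun η hη hηζ => ?_
    · rw [hr1]
      exact hw'.trans hw
    · rcases hη.eq_or_lt with rfl | hη
      · rw [hr1, hr2]
        refine FA.imp₂ hgood' (bt_ev_mkn hT w') fun G _ h1 h2 => ?_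
        rw [h2]
        exact Set.iUnion_subset h1.2.2
      · have h1 : FA (tr η r) fun G => ∀ i : (l : ℕ) × C (l + 1), tr η (cn (yy i)) ∈ G.car →
            ev ((cn (yy i)).co η) G ⊆ ev (p.co η) G :=
          FA.all fun i => (Cn.le_iff.1 (hok' i).lep η hηζ).cond _
        refine FA.imp₂ (hco η hη hηζ) h1 fun G _ h2 h3 => ?_
        obtain ⟨i, _, hi, hi'⟩ := h2
        rw [hi']
        exact h3 i hi
  · rw [hr2]
    exact bt_ev_mkn hT w'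
  · rw [hr2]
    refine FA.imp₂ hgood' (bt_ev_mkn hT w') fun G _ h1 h2 => ?_
    rw [h2]
    exact ⟨h1.1.st_union, h1.1.nm_union h1.2.1⟩
  · refine ⟨Set.range yy, Set.countable_range yy, ?_, fun v hv => ?_⟩
    · rintro _ ⟨i, rfl⟩
      exact ⟨_, _, hg.ok _ _ (hC2 _ i.2.2), hyy1 i⟩
    · have h1 : FA r fun G => ∃ i : (l : ℕ) × C (l + 1), mt {cn (yy i)} G := by
        have h2 := hact ζ hξ le_rfl
        rw [tr_self] at h2
        refine h2.imp fun G _ h3 => ?_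
        obtain ⟨i, _, hi, _⟩ := h3
        rw [tr_self] at hi
        exact ⟨i, cn (yy i), rfl, hi⟩
      obtain ⟨v', hv', i, c, hc', hvc⟩ := (h1.mono hv).exists_le
      rw [Set.mem_singleton_iff] at hc'
      subst hc'
      exact ⟨v', hv', yy i, ⟨i, rfl⟩, hvc⟩
  · have h1 := hr5 ζ hξ le_rfl
    rw [tr_self] at h1
    have h2 : FA r fun G => ∀ l, ∃ x ∈ C (l + 1), x.1 ∈ (rs ξ G).car := by
      refine FA.proj (Ψ := fun G => ∀ l, ∃ x ∈ C (l + 1), x.1 ∈ G.car) hξ.le ?_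
      rw [hr1]
      exact hmt
    refine FA.imp₂ h1 h2 fun G _ h3 h4 l hl => ?_
    obtain ⟨x, hx, hxG⟩ := h4 l
    have h5 : e l (rs ξ G) = yy ⟨l, x, hx⟩ := hyy2 ⟨l, x, hx⟩ _ hxG
    rw [h5] at hl ⊢
    have h6 := h3 ⟨l, x, hx⟩ ⟨⟨x.1, le_refl x.1, hxG⟩, hl⟩
    rwa [tr_self] at h6
  · intro η hη hηζ
    refine (hco η hη hηζ).imp fun G _ h1 => ?_
    obtain ⟨i, hi, hi', hi''⟩ := h1
    rw [hi] at hi' hi''
    exact ⟨i.1, hi', hi''⟩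

end Pool.Agent.Lib.MP_011f3a_lc.LM

/-! # The combination lemma for the local claims (module D-CMB)

`Gd p Φ c a v n`: some `ρ ≤ p` with `Φ c ρ` can be used below the child `a ++ [n]`. Use `exists_gsys` with `E = ℕ × Cn Ω md ζ` and `Ok c' h`: for all entries `(n, ρ)` `CmbOk p a c' n ρ` and
`Φ c ρ`, and the numbers are increasing; a step: `FA v (…)` gives `c'' ≤ c'` and `n` larger than the last number with `Gd`, and `exists_norm` makes `ρ` normal (in the Laver case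
the stem does not change because Laver trees are normal: `PLe` with `k ξ = 1`, `TLe.st`). Capture with `CW md ξ 0`, `exists_comb`, and `Phi.glue`. -/

namespace Pool.Agent.Lib.MP_011f3a_lc.LM

variable {Ω : Type} [LinearOrder Ω] [WellFoundedLT Ω] {md : Md} {ζ ξ η : Ω} {I : Type} {Φ : I → Cn Ω md ζ → Prop}

/-- some `ρ ≤ p` with `Φ c ρ` can be used below the child `a ++ [n]` -/
def Gd (p : Cn Ω md ζ) (Φ : I → Cn Ω md ζ → Prop) (c : I) (a : List ℕ) (v : Cn Ω md ξ) (n : ℕ) : Prop :=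
  ∃ ρ ≤ p, v ≤ tr ξ ρ ∧ Φ c ρ ∧ (FA v fun G => ev (ρ.co ξ) G ⊆ abv Set.univ (a ++ [n])) ∧
    (md = Md.laver → FA v fun G => St (ev (ρ.co ξ) G) (a ++ [n]))

theorem Gd.mono {p : Cn Ω md ζ} {c : I} {a : List ℕ} {v v' : Cn Ω md ξ} {n : ℕ} (h : Gd p Φ c a v n) (hv : v' ≤ v) :
    Gd p Φ c a v' n := by
  obtain ⟨ρ, h1, h2, h3, h4, h5⟩ := h
  exact ⟨ρ, h1, hv.trans h2, h3, h4.mono hv, fun hl => (h5 hl).mono hv⟩

/-- the accepting conditions -/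
private def Cmb_Ok (p : Cn Ω md ζ) (Φ : I → Cn Ω md ζ → Prop) (c : I) (a : List ℕ) (v : Cn Ω md ξ)
    (h : List (ℕ × Cn Ω md ζ)) : Prop :=
  (∀ y ∈ h, CmbOk p a v y.1 y.2 ∧ Φ c y.2) ∧ h.Pairwise fun x y => x.1 < y.1

private theorem Cmb_step (hξ : ξ < ζ) (hP : Phi Φ) (p : Cn Ω md ζ) (a : List ℕ) (c : I)
    {v : Cn Ω md ξ} (h : FA v fun G => ∀ N, ∃ n ≥ N, ∃ v ∈ G.car, Gd p Φ c a v n) (N : ℕ) :
    ∃ v' ≤ v, ∃ n ≥ N, ∃ ρ, CmbOk p a v' n ρ ∧ Φ c ρ := by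
  have h1 : FA v fun G => ∃ n : {n // n ≥ N}, mt {v | Gd p Φ c a v n.1} G := by
    refine h.imp fun G _ h2 => ?_
    obtain ⟨n, hn, u, hu, hd⟩ := h2 N
    exact ⟨⟨n, hn⟩, u, hd, hu⟩
  obtain ⟨u, hu, n, u', hu', huu⟩ := h1.exists_le
  have h2 : Gd p Φ c a u n.1 := Gd.mono hu' huu
  obtain ⟨ρ, hρ, huρ, hΦ, hsub, hlav⟩ := h2
  obtain ⟨ρ1, h3, h4, h5, _⟩ := exists_join hξ.le ρ u huρ
  obtain ⟨ρ2, h6, h7, _, h8⟩ := exists_norm ρ1
  have h9 : ρ2 ≤ ρ1 := (h6 0).le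
  have h10 : tr ξ ρ2 ≤ u := by
    rw [← h3]
    exact tr_mono h9 ξ
  refine ⟨tr ξ ρ2, h10.trans hu, n.1, n.2, ρ2, ⟨le_rfl, h9.trans (h5.trans hρ), ?_, h7 ξ hξ, ?_⟩,
    hP.mono c ρ ρ2 (h9.trans h5) hΦ⟩
  · have h11 := Cn.le_iff.1 h9 ξ hξ
    rw [h4 ξ le_rfl] at h11
    exact FA.imp₂ h11 (hsub.mono h10) fun G _ h12 h13 => h12.trans h13
  · intro hl
    have h11 := h8 ξ hξ
    have h12 := (ρ1.good ξ).mono (tr_mono h9 ξ)
    rw [h4 ξ le_rfl] at h11 h12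
    refine FA.imp₂ (h11.and h12) ((hlav hl).mono h10) fun G _ h13 h14 => ?_
    have h15 : Nm (ev (ρ.co ξ) G) := by
      have h16 := h13.2
      subst hl
      exact Laver.nm h16
    rw [h13.1 h15]
    exact h14

theorem cmb (hξ : ξ < ζ) (hP : Phi Φ) (hC : CW md ξ 0) (p : Cn Ω md ζ) (w : Cn Ω md ξ) (hw : w ≤ tr ξ p) (a : List ℕ) (c : I)
    (h : FA w fun G => ∀ N, ∃ n ≥ N, ∃ v ∈ G.car, Gd p Φ c a v n) :
    ∃ r ≤ p, tr ξ r ≤ w ∧ Φ c r ∧ FA (tr ξ r) fun G => St (ev (r.co ξ) G) a ∧ Nm (ev (r.co ξ) G) := by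
  obtain ⟨A, e, hg⟩ := exists_gsys (E := ℕ × Cn Ω md ζ) (Cmb_Ok p Φ c a) w
    (fun v v' l hl hv => ⟨fun y hy => ⟨(hl.1 y hy).1.mono hv, (hl.1 y hy).2⟩, hl.2⟩)
    ⟨fun y hy => absurd hy List.not_mem_nil, List.Pairwise.nil⟩ (by
      intro v l hv hl
      obtain ⟨v', hv', n, hn, ρ, hρ, hΦ⟩ := Cmb_step hξ hP p a c (h.mono hv) ((l.map Prod.fst).sum + 1)
      refine ⟨v', hv', (n, ρ), ?_, ?_⟩
      · intro y hy
        rcases List.mem_append.1 hy with hy | hy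
        · exact ⟨(hl.1 y hy).1.mono hv', (hl.1 y hy).2⟩
        · rw [List.mem_singleton] at hy
          subst hy
          exact ⟨hρ, hΦ⟩
      · refine List.pairwise_append.2 ⟨hl.2, List.pairwise_singleton _ _, fun x hx y hy => ?_⟩
        rw [List.mem_singleton] at hy
        subst hy
        show x.1 < n
        have h1 : x.1 ≤ (l.map Prod.fst).sum :=
          List.single_le_sum (fun _ _ => Nat.zero_le _) _ (List.mem_map_of_mem hx)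
        omega)
  obtain ⟨w', hw', hcap⟩ := hC w (fun l => {c | ∃ x ∈ A l, c ≤ x.1})
    (fun l c hc c' hc' => by
      obtain ⟨x, hx, hcx⟩ := hc
      exact ⟨x, hx, hc'.trans hcx⟩)
    (fun l q hq => by
      obtain ⟨r, hr, x, hx, hrx⟩ := hg.dns l q hq
      exact ⟨r, hr, x, hx, hrx⟩)
  obtain ⟨r, hr, hr1, _, hr2, ⟨Y, hY, hY1, hY2⟩, _, _⟩ := exists_comb hξ p w w' hw hw'.le a Prod.fst
    Prod.snd hg (fun c h hc y hy => (hc.1 y hy).1) (fun c h hc => hc.2) hcap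
  refine ⟨r, hr, ?_, ?_, ?_⟩
  · rw [hr1]
    exact hw'.le
  · have hne : Y.Nonempty := by
      obtain ⟨_, _, y, hy, _⟩ := hY2 r le_rfl
      exact ⟨y, hy⟩
    obtain ⟨f, hf⟩ := hY.exists_eq_range hne
    refine hP.glue c r (fun i => (f i).2) (fun i => ?_) fun q hq => ?_
    · obtain ⟨_, l, hl, hy⟩ := hY1 (f i) (by rw [hf]; exact ⟨i, rfl⟩)
      exact (hl.1 _ hy).2
    · obtain ⟨q', hq', y, hy, hqy⟩ := hY2 q hq
      rw [hf] at hy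
      obtain ⟨i, rfl⟩ := hy
      exact ⟨q', hq', i, hqy⟩
  · rw [hr1]
    exact hr2

/-- with pigeonhole for `c` -/
theorem cmb' (hξ : ξ < ζ) (hP : Phi Φ) (hC : CW md ξ 0) (p : Cn Ω md ζ) (w : Cn Ω md ξ) (hw : w ≤ tr ξ p) (a : List ℕ)
    (h : FA w fun G => ∀ N, ∃ n ≥ N, ∃ v ∈ G.car, ∃ c, Gd p Φ c a v n) :
    ∃ c, ∃ r ≤ p, tr ξ r ≤ w ∧ Φ c r ∧ FA (tr ξ r) fun G => St (ev (r.co ξ) G) a ∧ Nm (ev (r.co ξ) G) := by
  classical
  have hfin := hP.fin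
  have hft := Fintype.ofFinite I
  have h1 : FA w fun G => ∃ c : I, ∀ N : ℕ, ∃ n : ℕ, n ≥ N ∧ mt {v | Gd p Φ c a v n} G := by
    refine h.imp fun G _ h2 => ?_
    by_contra hcon
    push Not at hcon
    choose f hf using hcon
    obtain ⟨n, hn, v, hv, c, hc⟩ := h2 (∑ c, f c)
    refine hf c n ?_ ⟨v, hc, hv⟩
    exact (Finset.single_le_sum (fun _ _ => Nat.zero_le _) (Finset.mem_univ c)).trans hn
  obtain ⟨v, hv, c, hc⟩ := FA.exists_of_BPr (fun c => BPr.all fun N => BPr.exists fun n =>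
    (BPr.const (n ≥ N)).and (BPr.mt _)) h1
  obtain ⟨r, hr, hr1, hr2⟩ := cmb hξ hP hC p v (hv.trans hw) a c (hc.imp fun G _ h2 N => by
    obtain ⟨n, hn, u, hu, huG⟩ := h2 N
    exact ⟨n, hn, u, huG, hu⟩)
  exact ⟨c, r, hr, hr1.trans hv, hr2⟩

end Pool.Agent.Lib.MP_011f3a_lc.LM
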