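import Pool.Agent.Lib.MP_011f3a_lc.LM.A.DV
import Pool.Agent.Lib.MP_011f3a_lc.LM.A.TreeC0
import Pool.Agent.Lib.MP_011f3a_lc.LM.I.CoB

/-! # Replacing the lower part of a condition; changing one coordinate (module I-JOIN)

`exists_join`: `exists_mk` with `N η = w.co η` for `η < ξ`, `N η = p.co η` for `η ≥ ξ`; a `w'` with these values is `≤ tr η p`, so `p.good` and `FA.mono`
apply (show `w' ≤ tr η p` by `Cn.le_of`). `exists_upd`: `N ξ = mkn T`, the other values as in `p`; `bt_ev_mkn`. -/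

namespace Pool.Agent.Lib.MP_011f3a_lc.LM

variable {Ω : Type} [LinearOrder Ω] [WellFoundedLT Ω] {md : Md} {ζ ξ η : Ω}

open Classical in
theorem exists_join (h : ξ ≤ ζ) (p : Cn Ω md ζ) (w : Cn Ω md ξ) (hw : w ≤ tr ξ p) :
    ∃ r : Cn Ω md ζ, tr ξ r = w ∧ (∀ η, ξ ≤ η → r.co η = p.co η) ∧ r ≤ p ∧ ∀ q ≤ p, tr ξ q ≤ w → q ≤ r := by
  let N : ∀ η : Ω, List ℕ → Set (Cn Ω md η) := fun η => if η < ξ then w.co η else p.co η
  have hN1 : ∀ η, η < ξ → N η = w.co η := fun η h1 => if_pos h1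
  have hN2 : ∀ η, ξ ≤ η → N η = p.co η := fun η h1 => if_neg (not_lt.2 h1)
  obtain ⟨r, hr⟩ := exists_mk (md := md) (ζ := ζ) N (by
    refine (w.supp_countable.union p.supp_countable).mono ?_
    rintro η ⟨-, h1⟩
    rcases lt_or_ge η ξ with h2 | h2
    · rw [hN1 η h2] at h1
      exact Or.inl h1
    · rw [hN2 η h2] at h1
      exact Or.inr h1) (fun η hη w' hw' => by
    rcases lt_or_ge η ξ with h2 | h2
    · have h3 : w' = tr η w := Cn.ext fun θ hθ => by rw [hw' θ hθ, hN1 θ (hθ.trans h2), co_tr _ hθ]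
      rw [hN1 η h2, h3]
      exact Cn.good w η
    · rw [hN2 η h2]
      refine (Cn.good p η).mono (Cn.le_of (ξ := ξ) ?_ ?_)
      · have h3 : tr ξ w' = w := Cn.ext fun θ hθ => by
          rw [co_tr _ hθ, hw' θ (hθ.trans_le h2), hN1 θ hθ]
        rw [h3, tr_tr _ h2]
        exact hw
      · intro θ hθ hθη
        rw [hw' θ hθη, hN2 θ hθ, co_tr _ hθη]
        exact FA.of_forall fun G _ => subset_rfl)
  have h1 : tr ξ r = w := Cn.ext fun θ hθ => by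
    rw [co_tr _ hθ, hr θ (hθ.trans_le h), hN1 θ hθ]
  have h2 : ∀ η, ξ ≤ η → r.co η = p.co η := by
    intro η hη
    rcases lt_or_ge η ζ with h3 | h3
    · rw [hr η h3, hN2 η hη]
    · rw [Cn.co_of_le _ h3, Cn.co_of_le _ h3]
  refine ⟨r, h1, h2, Cn.le_of (ξ := ξ) (by rw [h1]; exact hw) fun η hη _ => ?_, fun q hq hqw => ?_⟩
  · rw [h2 η hη]
    exact FA.of_forall fun G _ => subset_rfl
  · refine Cn.le_of (ξ := ξ) (by rw [h1]; exact hqw) fun η hη hηζ => ?_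
    rw [h2 η hη]
    exact Cn.le_iff.1 hq η hηζ

theorem exists_upd (h : ξ < ζ) (p : Cn Ω md ζ) {T : Flt (Cn Ω md ξ) → Set (List ℕ)} (hT : BT T)
    (hp : FA (tr ξ p) fun G => TC md (T G) ∧ T G ⊆ ev (p.co ξ) G) :
    ∃ r : Cn Ω md ζ, r ≤ p ∧ tr ξ r = tr ξ p ∧ r.co ξ = mkn T ∧ ∀ η, ξ < η → r.co η = p.co η := by
  let N : ∀ η : Ω, List ℕ → Set (Cn Ω md η) := Function.update (fun η => p.co η) ξ (mkn T)
  have hN1 : N ξ = mkn T := Function.update_self ..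
  have hN2 : ∀ η, η ≠ ξ → N η = p.co η := fun η h1 => Function.update_of_ne h1 ..
  have hkey : ∀ (η : Ω) (w' : Cn Ω md η), (∀ θ < η, w'.co θ = N θ) → w' ≤ tr η p := by
    intro η w' hw'
    rw [Cn.le_iff]
    intro θ hθ
    rw [hw' θ hθ, co_tr _ hθ]
    by_cases h3 : θ = ξ
    · subst h3
      have h4 : tr θ w' = tr θ p := Cn.ext fun ι hι => by
        rw [co_tr _ hι, co_tr _ hι, hw' ι (hι.trans hθ), hN2 ι hι.ne]
      rw [h4, hN1]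
      exact hp.imp₂ (bt_ev_mkn hT _) fun G _ h5 h6 => by rw [h6]; exact h5.2
    · rw [hN2 θ h3]
      exact FA.of_forall fun G _ => subset_rfl
  obtain ⟨r, hr⟩ := exists_mk (md := md) (ζ := ζ) N (by
    refine ((Set.countable_singleton ξ).union p.supp_countable).mono ?_
    rintro η ⟨-, h1⟩
    by_cases h2 : η = ξ
    · exact Or.inl h2
    · rw [hN2 η h2] at h1
      exact Or.inr h1) (fun η hη w' hw' => by
    by_cases h3 : η = ξ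
    · subst h3
      have h4 : w' = tr η p := Cn.ext fun θ hθ => by rw [co_tr _ hθ, hw' θ hθ, hN2 θ hθ.ne]
      rw [h4, hN1]
      exact hp.imp₂ (bt_ev_mkn hT _) fun G _ h5 h6 => by rw [h6]; exact h5.1
    · rw [hN2 η h3]
      exact (Cn.good p η).mono (hkey η w' hw'))
  have hrp : r ≤ p := by
    have h3 := hkey ζ r hr
    rwa [tr_self] at h3
  refine ⟨r, hrp, Cn.ext fun θ hθ => ?_, by rw [hr ξ h, hN1], fun η hη => ?_⟩
  · rw [co_tr _ hθ, co_tr _ hθ, hr θ (hθ.trans h), hN2 θ hθ.ne]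
  · rcases lt_or_ge η ζ with h3 | h3
    · rw [hr η h3, hN2 η hη.ne']
    · rw [Cn.co_of_le _ h3, Cn.co_of_le _ h3]

/-- a condition on `P_γ`, `γ` the successor of `ξ`, from its two parts -/
theorem exists_two {γ : Ω} (h : ξ < γ) (hs : ∀ η < γ, η ≤ ξ) (w : Cn Ω md ξ) {T : Flt (Cn Ω md ξ) → Set (List ℕ)} (hT : BT T)
    (hw : FA w fun G => TC md (T G)) : ∃ r : Cn Ω md γ, tr ξ r = w ∧ r.co ξ = mkn T := by
  have h1 : tr ξ (tr γ w) = w := by rw [tr_tr' _ h.le, tr_self]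
  obtain ⟨r, -, h2, h3, -⟩ := exists_upd h (tr γ w) hT (by
    rw [h1, co_tr _ h, Cn.co_of_le w le_rfl]
    exact hw.imp fun G hG h4 => ⟨h4, fun s _ => ⟨w, trivial, hG⟩⟩)
  exact ⟨r, h2.trans h1, h3⟩

theorem exists_sc (h : ξ < ζ) : ∃ γ ≤ ζ, ξ < γ ∧ ∀ η < γ, η ≤ ξ := by
  have hne : {γ : Ω | ξ < γ}.Nonempty := ⟨ζ, h⟩
  refine ⟨WellFounded.min (wellFounded_lt (α := Ω)) _ hne, ?_, WellFounded.min_mem (wellFounded_lt (α := Ω)) _ hne, fun η hη => ?_⟩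
  · exact not_lt.1 (WellFounded.not_lt_min (wellFounded_lt (α := Ω)) {γ : Ω | ξ < γ} h)
  · by_contra h1
    exact WellFounded.not_lt_min (wellFounded_lt (α := Ω)) {γ : Ω | ξ < γ} (not_le.1 h1) hη

end Pool.Agent.Lib.MP_011f3a_lc.LM

/-! # Events depending on the restriction of the generic filter (module I-PROJ)

If `D` is dense in `P_ξ` then `{p | tr ξ p ∈ ↓D}` is dense in `P_ζ` (`exists_join`). `FA.of_proj`: if the conclusion fails, some `v ≤ tr ξ p` has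
`FA v (¬ Ψ)` (`BPr.of_forall`); join `v` and `p`. -/

namespace Pool.Agent.Lib.MP_011f3a_lc.LM

variable {Ω : Type} [LinearOrder Ω] [WellFoundedLT Ω] {md : Md} {ζ ξ η : Ω} {Y : Type*}

theorem FA.proj (h : ξ ≤ ζ) {p : Cn Ω md ζ} {Ψ : Flt (Cn Ω md ξ) → Prop} (hF : FA (tr ξ p) Ψ) :
    FA p fun G => Ψ (rs ξ G) := by
  obtain ⟨D, hD, h1⟩ := hF
  refine ⟨fun n => {q | ∃ d ∈ D n, tr ξ q ≤ d}, fun n q => ?_, fun G hG hm => h1 _ (tr_mem_rs hG ξ) fun n => ?_⟩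
  · obtain ⟨d, hd, hdD⟩ := hD n (tr ξ q)
    obtain ⟨r, hr, -, hrq, -⟩ := exists_join h q d hd
    exact ⟨r, hrq, d, hdD, hr.le⟩
  · obtain ⟨c, ⟨d, hd, hcd⟩, hc⟩ := hm n
    exact ⟨d, hd, c, hc, hcd⟩

theorem FA.of_proj (h : ξ ≤ ζ) {p : Cn Ω md ζ} {Ψ : Flt (Cn Ω md ξ) → Prop} (hb : BPr Ψ)
    (hF : FA p fun G => Ψ (rs ξ G)) : FA (tr ξ p) Ψ := by
  refine hb.of_forall fun v hv h1 => ?_
  obtain ⟨r, hr, -, hrp, -⟩ := exists_join h p v hv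
  have h2 : FA r fun G => ¬ Ψ (rs ξ G) := FA.proj h (Ψ := fun G => ¬ Ψ G) (by rw [hr]; exact h1)
  exact FA.not_false ((hF.mono hrp).imp₂ h2 fun G _ h3 h4 => h4 h3)

theorem BPr.proj (h : ξ ≤ ζ) {Ψ : Flt (Cn Ω md ξ) → Prop} (hb : BPr Ψ) : BPr fun G : Flt (Cn Ω md ζ) => Ψ (rs ξ G) := by
  intro w
  obtain ⟨v, hv, h1⟩ := hb (tr ξ w)
  obtain ⟨r, hr, -, hrw, -⟩ := exists_join h w v hv
  refine ⟨r, hrw, ?_⟩
  rw [← hr] at h1
  exact h1.imp (FA.proj h) (FA.proj h)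

theorem bt_proj (h : ξ ≤ ζ) {T : Flt (Cn Ω md ξ) → Set (List ℕ)} (hb : BT T) : BT fun G : Flt (Cn Ω md ζ) => T (rs ξ G) :=
  fun s => BPr.proj h (hb s)

theorem DV.proj (h : ξ ≤ ζ) {y : Flt (Cn Ω md ξ) → Y} (hy : DV y) : DV fun G : Flt (Cn Ω md ζ) => y (rs ξ G) := by
  intro w
  obtain ⟨v, hv, a, h1⟩ := hy (tr ξ w)
  obtain ⟨r, hr, -, hrw, -⟩ := exists_join h w v hv
  rw [← hr] at h1
  exact ⟨r, hrw, a, FA.proj h h1⟩

theorem bt_vl (p : Cn Ω md ζ) (h : ξ ≤ η) : BT fun G : Flt (Cn Ω md η) => vl p ξ G :=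
  bt_proj h (bt_ev (p.co ξ))

/-- `q ≤ p` and `G ∋ q` -/
theorem FA.vl_sub {p q : Cn Ω md ζ} (h : ξ < ζ) (hpq : q ≤ p) : FA (tr ξ q) fun G => ev (q.co ξ) G ⊆ ev (p.co ξ) G :=
  Cn.le_iff.1 hpq ξ h

/-- decide an event of `P_ξ` below a condition of `P_ζ` -/
theorem exists_decide (h : ξ ≤ ζ) (p : Cn Ω md ζ) {Ψ : Flt (Cn Ω md ξ) → Prop} (hb : BPr Ψ) :
    ∃ r ≤ p, (∀ η, ξ ≤ η → r.co η = p.co η) ∧ (FA (tr ξ r) Ψ ∨ FA (tr ξ r) fun G => ¬ Ψ G) := by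
  obtain ⟨v, hv, h1⟩ := hb (tr ξ p)
  obtain ⟨r, hr, h2, hrw, -⟩ := exists_join h p v hv
  rw [← hr] at h1
  exact ⟨r, hrw, h2, h1⟩

/-- capturing is inherited by the restriction -/
theorem Cap.proj (h : ξ ≤ ζ) {p : Cn Ω md ζ} {D : Set (Cn Ω md ξ)} (hc : Cap p {q | tr ξ q ∈ D}) : Cap (tr ξ p) D := by
  obtain ⟨C, hC, hCD, h1⟩ := hc
  refine ⟨tr ξ '' C, hC.image _, ?_, fun q hq => ?_⟩
  · rintro _ ⟨c, hc, rfl⟩
    exact hCD hc
  · obtain ⟨r0, hr0, -, hr0p, -⟩ := exists_join h p q hq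
    obtain ⟨r, hr, c, hc, hrc⟩ := h1 r0 hr0p
    refine ⟨tr ξ r, ?_, tr ξ c, ⟨c, hc, rfl⟩, tr_mono hrc ξ⟩
    rw [← hr0]
    exact tr_mono hr ξ

end Pool.Agent.Lib.MP_011f3a_lc.LM
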