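import Mathlib

/-!
# Countable support iterations of tree forcings

`Ω` is a well-ordered type. For `ζ : Ω` the forcing notion `P_ζ` is the set of the functions `p` with domain
`{ξ : ξ < ζ}` such that `p(ξ)` is a `P_ξ`-name of a tree of finite sequences of natural numbers, forced by
the restriction of `p` to `ξ` to be a Laver tree (a rational perfect tree, respectively), and such that
`p(ξ)` is the full tree except for countably many `ξ`. A name of a tree is given by the function which maps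
every finite sequence `s` to a set of elements of `P_ξ`: `s` belongs to the tree if this set meets the
generic filter.
-/

namespace Pool.Agent.Lib.MP_011f3a_lc.LM

/-- a set of conditions with a relation; `le p q` is read as `p ≤ q` (`p` is stronger than `q`) -/
structure PO (R : Type) where
  /-- the conditions -/
  mem : Set R
  /-- the order -/
  le : R → R → Prop

namespace PO

variable {R : Type} (Q : PO R)

/-- `w` forces that the set `A` of conditions meets the generic filter -/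
def Frc (A : Set R) (w : R) : Prop :=
  ∀ w' ∈ Q.mem, Q.le w' w → ∃ v ∈ Q.mem, Q.le v w' ∧ ∃ c ∈ A, Q.le v c

/-- `w` forces `T ⊆ T'`, for names `T`, `T'` of sets of finite sequences -/
def FSub (T T' : List ℕ → Set R) (w : R) : Prop :=
  ∀ s, ∀ w' ∈ Q.mem, Q.le w' w → Q.Frc (T s) w' → Q.Frc (T' s) w'

/-- `w` forces that `T` is closed under initial segments -/
def FTree (T : List ℕ → Set R) (w : R) : Prop :=
  ∀ s n, ∀ w' ∈ Q.mem, Q.le w' w → Q.Frc (T (s ++ [n])) w' → Q.Frc (T s) w'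

/-- `w` forces that `s` belongs to `T` and that `s ⌢ n` belongs to `T` for infinitely many `n` -/
def FSplit (T : List ℕ → Set R) (s : List ℕ) (w : R) : Prop :=
  Q.Frc (T s) w ∧
    ∀ m, ∀ w' ∈ Q.mem, Q.le w' w → ∃ v ∈ Q.mem, Q.le v w' ∧ ∃ n ≥ m, Q.Frc (T (s ++ [n])) v

/-- `w` forces that `T` is a Laver tree: there is `s₀ ∈ T` such that every `s ∈ T` is comparable with `s₀`,
and every `s ∈ T` which extends `s₀` has infinitely many immediate successors in `T` -/
def FLaver (T : List ℕ → Set R) (w : R) : Prop :=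
  Q.FTree T w ∧ ∀ w' ∈ Q.mem, Q.le w' w → ∃ v ∈ Q.mem, Q.le v w' ∧ ∃ s₀, Q.Frc (T s₀) v ∧
    ∀ s, ∀ u ∈ Q.mem, Q.le u v → Q.Frc (T s) u → (s <+: s₀ ∨ s₀ <+: s) ∧ (s₀ <+: s → Q.FSplit T s u)

/-- `w` forces that `T` is a rational perfect tree (superperfect tree): `T` is nonempty and every `s ∈ T` has an
extension in `T` which has infinitely many immediate successors in `T` -/
def FMiller (T : List ℕ → Set R) (w : R) : Prop :=
  Q.FTree T w ∧ Q.Frc (T []) w ∧ ∀ s, ∀ w' ∈ Q.mem, Q.le w' w → Q.Frc (T s) w' →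
    ∃ v ∈ Q.mem, Q.le v w' ∧ ∃ t, s <+: t ∧ Q.FSplit T t v

end PO

/-- which forcing -/
inductive Md : Type
  | laver
  | miller

/-- `w` forces that `T` is a condition of the iterand: a Laver tree, a rational perfect tree -/
def Md.F : Md → ∀ R : Type, PO R → (List ℕ → Set R) → R → Prop
  | .laver, _, Q, T, w => Q.FLaver T w
  | .miller, _, Q, T, w => Q.FMiller T w

section Iteration

variable (Ω : Type) [LinearOrder Ω] [WellFoundedLT Ω]

/-- the functions `p` with domain `{ξ : ξ < ζ}` whose value at `ξ` is a function from the finite sequences to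
the sets of such functions with domain `{η : η < ξ}` -/
noncomputable def Raw : Ω → Type :=
  WellFoundedLT.fix (motive := fun _ => Type) (fun ζ ih => ∀ ξ : Ω, (h : ξ < ζ) → List ℕ → Set (ih ξ h))

variable {Ω}

theorem raw_eq (ζ : Ω) : Raw Ω ζ = (∀ ξ : Ω, ξ < ζ → List ℕ → Set (Raw Ω ξ)) :=
  WellFoundedLT.fix_eq (motive := fun _ => Type) _ ζ

/-- the value `p(ξ)` -/
def Raw.at {ζ : Ω} (p : Raw Ω ζ) (ξ : Ω) (h : ξ < ζ) : List ℕ → Set (Raw Ω ξ) :=
  cast (raw_eq ζ) p ξ h

/-- the element with given values -/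
def Raw.mk {ζ : Ω} (f : ∀ ξ : Ω, ξ < ζ → List ℕ → Set (Raw Ω ξ)) : Raw Ω ζ := cast (raw_eq ζ).symm f

/-- the restriction of `p` to `ξ ≤ ζ` -/
def Raw.res {ζ : Ω} (p : Raw Ω ζ) (ξ : Ω) (h : ξ ≤ ζ) : Raw Ω ξ :=
  Raw.mk fun η hη => p.at η (hη.trans_le h)

/-- The forcing notions `P_ζ`. `F Q T w` says that `w` forces over `Q` that `T` is a condition of the iterand. -/
noncomputable def CSI (F : ∀ R : Type, PO R → (List ℕ → Set R) → R → Prop) : ∀ ζ : Ω, PO (Raw Ω ζ) :=
  WellFoundedLT.fix (motive := fun ζ => PO (Raw Ω ζ)) fun ζ ih =>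
    { mem := {p | {ξ : Ω | ∃ h : ξ < ζ, p.at ξ h ≠ fun _ => (ih ξ h).mem}.Countable ∧
        ∀ ξ (h : ξ < ζ), (∀ s, p.at ξ h s ⊆ (ih ξ h).mem) ∧ F _ (ih ξ h) (p.at ξ h) (p.res ξ h.le)}
      le := fun p q => ∀ ξ (h : ξ < ζ), (ih ξ h).FSub (p.at ξ h) (q.at ξ h) (p.res ξ h.le) }

end Iteration

end Pool.Agent.Lib.MP_011f3a_lc.LM
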