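import Pool.Agent.Lib.MP_011f3a_lc.LM.A.TreeC0
import Pool.Agent.Lib.MP_011f3a_lc.LM.I.CoB

/-! # The generic branch (module I-TP)

`tp ζ ξ s` is the condition which says that the branch at `ξ` extends `s` (or is an initial part of it). `gb ξ G` is the generic branch at
`ξ`. For `gb_branch`: below every `p` there is, for every `n`, some `s` of length `n` and `r ≤ p` with `r ≤ tp ζ ξ s`: decide a node `s` of length `n`
of `p(ξ)` and replace `p(ξ)` by `abv p(ξ) s`; if `s`, `t` are incomparable then `tp ζ ξ s`, `tp ζ ξ t` are incompatible. -/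

namespace Pool.Agent.Lib.MP_011f3a_lc.LM

variable {Ω : Type} [LinearOrder Ω] [WellFoundedLT Ω] {md : Md} {ζ ξ η : Ω}

private theorem tp_bt (s : List ℕ) : BT fun _ : Flt (Cn Ω md ζ) => abv Set.univ s := fun _ => BPr.const _

private theorem tp_ev (s : List ℕ) (w : Cn Ω md ζ) :
    FA w fun G => ev (mkn fun _ : Flt (Cn Ω md ζ) => abv Set.univ s) G = abv Set.univ s := bt_ev_mkn (tp_bt s) w

private theorem tp_full (w : Cn Ω md ξ) (T : List ℕ → Set (Cn Ω md ξ)) :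
    FA w fun G => ev T G ⊆ ev (full (Cn Ω md ξ) (List ℕ)) G :=
  FA.of_forall fun G hG _ _ => ⟨w, trivial, hG⟩

theorem exists_tp (ζ ξ : Ω) (s : List ℕ) : ∃ p : Cn Ω md ζ, (∀ η < ζ, η ≠ ξ → p.co η = full _ _) ∧
    (ξ < ζ → p.co ξ = mkn fun _ => abv Set.univ s) := by
  let N : ∀ η : Ω, List ℕ → Set (Cn Ω md η) := Function.update (fun η => full _ _) ξ (mkn fun _ => abv Set.univ s)
  have hN1 : N ξ = mkn fun _ => abv Set.univ s := Function.update_self ..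
  have hN2 : ∀ η, η ≠ ξ → N η = full _ _ := fun η h1 => Function.update_of_ne h1 ..
  obtain ⟨p, hp⟩ := exists_mk (md := md) (ζ := ζ) N (by
    refine (Set.countable_singleton ξ).mono ?_
    rintro η ⟨-, h1⟩
    by_contra h2
    exact h1 (hN2 η h2)) (fun η hη w' hw' => by
    by_cases h3 : η = ξ
    · subst h3
      rw [hN1]
      exact (tp_ev s w').imp fun G _ h4 => by rw [h4]; exact tc_abv TC.univ trivial
    · rw [hN2 η h3]
      have h4 := Cn.good w' η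
      rwa [tr_self, Cn.co_of_le w' le_rfl] at h4)
  exact ⟨p, fun η hη h1 => by rw [hp η hη, hN2 η h1], fun h => by rw [hp ξ h, hN1]⟩

/-- the condition which says that the branch at `ξ` passes through `s` -/
noncomputable def tp (ζ ξ : Ω) (s : List ℕ) : Cn Ω md ζ := (exists_tp ζ ξ s).choose

/-- the generic branch at `ξ` -/
def gb (ξ : Ω) (G : Flt (Cn Ω md ζ)) : Set (List ℕ) := {s | tp ζ ξ s ∈ G.car}

theorem co_tp_of_ne (s : List ℕ) (h : η ≠ ξ) : (tp ζ ξ s : Cn Ω md ζ).co η = full _ _ := by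
  rcases lt_or_ge η ζ with h1 | h1
  · exact (exists_tp ζ ξ s).choose_spec.1 η h1 h
  · exact Cn.co_of_le _ h1

theorem co_tp (s : List ℕ) (h : ξ < ζ) : (tp ζ ξ s : Cn Ω md ζ).co ξ = mkn fun _ => abv Set.univ s :=
  (exists_tp ζ ξ s).choose_spec.2 h

theorem le_tp_iff {p : Cn Ω md ζ} {s : List ℕ} (h : ξ < ζ) :
    p ≤ tp ζ ξ s ↔ FA (tr ξ p) fun G => ev (p.co ξ) G ⊆ abv Set.univ s := by
  rw [Cn.le_iff]
  constructor
  · intro h1
    have h2 := h1 ξ h
    rw [co_tp s h] at h2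
    exact h2.imp₂ (tp_ev s _) fun G _ h3 h4 => by rw [h4] at h3; exact h3
  · intro h1 η hη
    by_cases h3 : η = ξ
    · subst h3
      rw [co_tp s h]
      exact h1.imp₂ (tp_ev s _) fun G _ h3 h4 => by rw [h4]; exact h3
    · rw [co_tp_of_ne s h3]
      exact tp_full _ _

theorem tp_mono {s t : List ℕ} (h : s <+: t) : (tp ζ ξ t : Cn Ω md ζ) ≤ tp ζ ξ s := by
  rcases lt_or_ge ξ ζ with h1 | h1
  · rw [le_tp_iff h1, co_tp t h1]
    refine (tp_ev t _).imp fun G _ h2 => ?_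
    rw [h2]
    rintro x ⟨-, h3 | h3⟩
    · exact ⟨trivial, prefix_or h3 h⟩
    · exact ⟨trivial, Or.inr (h.trans h3)⟩
  · rw [Cn.le_iff]
    intro η hη
    rw [co_tp_of_ne s (hη.trans_le h1).ne]
    exact tp_full _ _

theorem tr_tp (s : List ℕ) (h : ξ < η) (h' : η ≤ ζ) : tr η (tp ζ ξ s : Cn Ω md ζ) = tp η ξ s := by
  refine Cn.ext fun θ hθ => ?_
  rw [co_tr _ hθ]
  by_cases h3 : θ = ξ
  · subst h3
    rw [co_tp s (h.trans_le h'), co_tp s h]
  · rw [co_tp_of_ne s h3, co_tp_of_ne s h3]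

theorem tr_tp' (s : List ℕ) (h : ξ < η) (h' : η ≤ ζ) : tr ζ (tp η ξ s : Cn Ω md η) = tp ζ ξ s := by
  refine Cn.ext fun θ hθ => ?_
  rw [co_tr _ hθ]
  by_cases h3 : θ = ξ
  · subst h3
    rw [co_tp s (h.trans_le h'), co_tp s h]
  · rw [co_tp_of_ne s h3, co_tp_of_ne s h3]

theorem gb_rs (G : Flt (Cn Ω md ζ)) (h : ξ < η) (h' : η ≤ ζ) : gb ξ (rs η G) = gb ξ G := by
  ext s
  change tp η ξ s ∈ (rs η G).car ↔ tp ζ ξ s ∈ G.car
  rw [mem_rs h', tr_tp' s h h']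

theorem bpr_gb (s : List ℕ) : BPr fun G : Flt (Cn Ω md ζ) => s ∈ gb ξ G :=
  (BPr.mt {tp ζ ξ s}).congr fun G => ⟨fun ⟨c, hc, h⟩ => by rw [Set.mem_singleton_iff.1 hc] at h; exact h, fun h => ⟨_, rfl, h⟩⟩

end Pool.Agent.Lib.MP_011f3a_lc.LM
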