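import Pool.Agent.Lib.MP_011f3a_lc.LM.I.Join
import Pool.Agent.Lib.MP_011f3a_lc.LM.I.Tp

/-! # The generic branch, part 2 (module I-TPB)

`exists_restr`: `exists_upd` with `T G = if s ∈ ev (p.co ξ) G then abv (ev (p.co ξ) G) s else ev (p.co ξ) G` or directly `abv (…) s` (`tc_abv`), `le_tp_iff`, `bt_abv`. `gb_branch`: below every `p` there is, for every `n`, some `s` of length `n` and `r ≤ p` with `r ≤ tp ζ ξ s`: decide a node `s` of length `n`
of `p(ξ)` (`exists_decide`, `FA.exists_of_BPr`) and restrict; if `s`, `t` are incomparable then `tp ζ ξ s`, `tp ζ ξ t` are incompatible (`le_tp_iff`, `Cn.good`, `TC.of_subset_abv`). If `s ∈ gb` and `t <+: s` then `t ∈ gb` (`tp_mono`). -/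

namespace Pool.Agent.Lib.MP_011f3a_lc.LM

variable {Ω : Type} [LinearOrder Ω] [WellFoundedLT Ω] {md : Md} {ζ ξ η : Ω}

/-- restriction of the tree at `ξ` to the nodes comparable with `s` -/
theorem exists_restr (h : ξ < ζ) (p : Cn Ω md ζ) {s : List ℕ} (hs : FA (tr ξ p) fun G => s ∈ ev (p.co ξ) G) :
    ∃ r : Cn Ω md ζ, r ≤ p ∧ tr ξ r = tr ξ p ∧ (r.co ξ = mkn fun G => abv (ev (p.co ξ) G) s) ∧
      (∀ η, ξ < η → r.co η = p.co η) ∧ r ≤ tp ζ ξ s := by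
  have hT : BT fun G : Flt (Cn Ω md ξ) => abv (ev (p.co ξ) G) s := bt_abv (bt_ev _) s
  obtain ⟨r, h1, h2, h3, h4⟩ := exists_upd h p hT
    (hs.imp₂ (Cn.good p ξ) fun G _ h5 h6 => ⟨tc_abv h6 h5, abv_subset _ _⟩)
  refine ⟨r, h1, h2, h3, h4, ?_⟩
  rw [le_tp_iff h, h3]
  refine (bt_ev_mkn hT _).imp fun G _ h5 => ?_
  rw [h5]
  exact abv_mono (Set.subset_univ _) s

private theorem tpb_cmp (h : ξ < ζ) {s t : List ℕ} {r : Cn Ω md ζ} (hs : r ≤ tp ζ ξ s) (ht : r ≤ tp ζ ξ t) :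
    s <+: t ∨ t <+: s := by
  have h1 := (le_tp_iff h).1 hs
  have h2 := (le_tp_iff h).1 ht
  obtain ⟨G, -, ⟨h3, h4⟩, h5⟩ := ((h1.and h2).and (Cn.good r ξ)).exists
  have h6 : s ∈ ev (r.co ξ) G := TC.of_subset_abv h5 h3
  exact (h4 h6).2

theorem gb_branch (h : ξ < ζ) (p : Cn Ω md ζ) : FA p fun G => Branch (gb ξ G) := by
  refine FA.and (FA.all fun n => ?_) (FA.of_forall fun G _ s hs t ht hl => ?_)
  · refine FA_local fun w' _ => ?_
    have h1 : FA (tr ξ w') fun G => ∃ s : List ℕ, s ∈ ev (w'.co ξ) G ∧ s.length = n := by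
      refine (Cn.good w' ξ).imp fun G _ h2 => ?_
      obtain ⟨t, ht, -, hn⟩ := h2.exists_long h2.nil_mem n
      exact ⟨t.take n, h2.isTree.of_prefix (List.take_prefix n t) ht, List.length_take_of_le hn⟩
    obtain ⟨v, hv, s, h2⟩ := h1.exists_of_BPr fun s => (bt_ev _ s).and (BPr.const _)
    obtain ⟨r, hr, h3, hrw, -⟩ := exists_join h.le w' v hv
    rw [← hr, ← h3 ξ le_rfl] at h2
    obtain ⟨r', h4, -, -, -, h5⟩ := exists_restr h r (h2.imp fun G _ h6 => h6.1)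
    obtain ⟨-, -, -, h6⟩ := h2.exists
    exact ⟨r', h4.trans hrw, FA.of_forall fun G hG => ⟨s, G.up _ hG _ h5, h6⟩⟩
  · obtain ⟨r, -, h1, h2⟩ := G.dir _ hs _ ht
    rcases tpb_cmp h h1 h2 with h3 | h3
    · exact h3
    · rw [h3.eq_of_length_le hl]

end Pool.Agent.Lib.MP_011f3a_lc.LM
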